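import Pool.Agent.H8.LW.Rat
import Pool.Agent.H8.SC.Main

/-! # LW.Main : elliptic surfaces in long Weierstrass form and their fibre products over an algebraically closed field of characteristic
zero (complete) -/

namespace LW

open ES H68.BB FX SCX RR

variable {K : Type} [Field K] [IsAlgClosed K] [CharZero K] {s c d g k : ℕ}

/-- the condition on `c4`, `c6` -/
private theorem hab_sh {W : Lm K s} {I : Ideal (MvPolynomial (Fin s) K)}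
    (h : ∀ e e' : K, MvPolynomial.C e * W.c4 ^ 3 - MvPolynomial.C e' * W.c6 ^ 2 ∈ I → e = 0 ∧ e' = 0) :
    ∀ e e' : K, MvPolynomial.C e * (9 * W.c4) ^ 3 - MvPolynomial.C e' * (27 * W.c6) ^ 2 ∈ I → e = 0 ∧ e' = 0 := by
  intro e e' h1
  have h2 : MvPolynomial.C e * (9 * W.c4) ^ 3 - MvPolynomial.C e' * (27 * W.c6) ^ 2 =
      MvPolynomial.C (e * 729) * W.c4 ^ 3 - MvPolynomial.C (e' * 729) * W.c6 ^ 2 := by
    rw [map_mul, map_mul, map_ofNat]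
    ring
  rw [h2] at h1
  obtain ⟨h3, h4⟩ := h _ _ h1
  have h729 : (729 : K) ≠ 0 := by norm_num
  exact ⟨(mul_eq_zero.1 h3).resolve_right h729, (mul_eq_zero.1 h4).resolve_right h729⟩

/-- all tuples of points, any base curve -/
theorem altX_long {X : LD K s c} (hX : X.Ok) (hc : 0 < c) (hB : SmC X.v X.I d g)
    (hab : ∀ j, ∀ e e' : K, MvPolynomial.C e * (X.L j).c4 ^ 3 - MvPolynomial.C e' * (X.L j).c6 ^ 2 ∈ Ideal.span X.I → e = 0 ∧ e' = 0)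
    (hk : (∑ j, X.n j) * d + g ≤ k) (R : Fin k → Row s c K) (hR : ∀ i, OnLX X (R i)) :
    ∃ N : ℕ, 0 < N ∧ N • altX R ∈ RatLX k X :=
  altX_mem hX (fun R hR => altX_all (X := X.sh) (LD_sh_ok hX) hc hB (fun j => hab_sh (hab j)) hk R hR) hR

theorem LP_ok {n : Fin c → ℕ} {a1 a2 a3 a4 a6 : Fin c → MvPolynomial (Fin 2) K} (hn : ∀ j, 0 < n j)
    (h1 : ∀ j, (a1 j).IsHomogeneous (n j)) (h2 : ∀ j, (a2 j).IsHomogeneous (2 * n j)) (h3 : ∀ j, (a3 j).IsHomogeneous (3 * n j))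
    (h4 : ∀ j, (a4 j).IsHomogeneous (4 * n j)) (h6 : ∀ j, (a6 j).IsHomogeneous (6 * n j)) : (LP n a1 a2 a3 a4 a6).Ok :=
  ⟨fun _ => Nat.one_pos, hn, fun f hf => absurd hf (Set.notMem_empty f), h1, h2, h3, h4, h6⟩

private theorem hab_P1' {W : Lm K 2} (hab : ∀ e e' : K, e • W.c4 ^ 3 = e' • W.c6 ^ 2 → e = 0 ∧ e' = 0) :
    ∀ e e' : K, MvPolynomial.C e * W.c4 ^ 3 - MvPolynomial.C e' * W.c6 ^ 2 ∈
      Ideal.span (∅ : Set (MvPolynomial (Fin 2) K)) → e = 0 ∧ e' = 0 := by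
  intro e e' h
  rw [Ideal.span_empty, Ideal.mem_bot, sub_eq_zero, ← MvPolynomial.smul_eq_C_mul, ← MvPolynomial.smul_eq_C_mul] at h
  exact hab e e' h

/-- all tuples of points, base `ℙ¹` -/
theorem altX_longP1 {n : Fin c → ℕ} {a1 a2 a3 a4 a6 : Fin c → MvPolynomial (Fin 2) K} (hX : (LP n a1 a2 a3 a4 a6).Ok)
    (hab : ∀ j, ∀ e e' : K, e • ((LP n a1 a2 a3 a4 a6).L j).c4 ^ 3 = e' • ((LP n a1 a2 a3 a4 a6).L j).c6 ^ 2 → e = 0 ∧ e' = 0)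
    (hc : 0 < c) (hk : ∑ j, n j ≤ k) (R : Fin k → Row 2 c K) (hR : ∀ i, OnLX (LP n a1 a2 a3 a4 a6) (R i)) :
    ∃ N : ℕ, 0 < N ∧ N • altX R ∈ RatLX k (LP n a1 a2 a3 a4 a6) :=
  altX_long (d := 1) (g := 0) hX hc (smC_P1 : SmC (LP n a1 a2 a3 a4 a6).v (LP n a1 a2 a3 a4 a6).I 1 0)
    (fun j => hab_P1' (hab j)) (by rw [mul_one, add_zero]; exact hk) R hR

/-- base `ℙ¹`, one surface or two rational surfaces: all zero-cycles of degree zero -/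
theorem altzX_longP1 {n : Fin c → ℕ} {a1 a2 a3 a4 a6 : Fin c → MvPolynomial (Fin 2) K} (hX : (LP n a1 a2 a3 a4 a6).Ok)
    (hab : ∀ j, ∀ e e' : K, e • ((LP n a1 a2 a3 a4 a6).L j).c4 ^ 3 = e' • ((LP n a1 a2 a3 a4 a6).L j).c6 ^ 2 → e = 0 ∧ e' = 0)
    (hk : ∑ j, n j ≤ k) (hc : c = 1 ∨ (c = 2 ∧ ∀ j, n j = 1)) {z : Fin k → (Row 2 c K →₀ ℤ)}
    (hz : ∀ i, ∀ R ∈ (z i).support, OnLX (LP n a1 a2 a3 a4 a6) R) (h0 : ∀ i, ((z i).sum fun _ m => m) = 0) :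
    ∃ N : ℕ, 0 < N ∧ N • altzX z ∈ RatLX k (LP n a1 a2 a3 a4 a6) := by
  classical
  refine altzX_memL hX fun F hF => ?_
  refine sch_two (a := fun j => 9 * ((LP n a1 a2 a3 a4 a6).L j).c4) (b := fun j => 27 * ((LP n a1 a2 a3 a4 a6).L j).c6)
    hX.n (fun j => (sh_ok (hX.L j)).a) (fun j => (sh_ok (hX.L j)).b) (fun j e e' he => ?_) hk hc ?_ ?_
  · refine hab_sh (I := Ideal.span ∅) (W := (LP n a1 a2 a3 a4 a6).L j) (hab_P1' (hab j)) e e' ?_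
    rw [Ideal.span_empty, Ideal.mem_bot, sub_eq_zero, ← MvPolynomial.smul_eq_C_mul, ← MvPolynomial.smul_eq_C_mul]
    exact he
  · intro i R hR
    obtain ⟨R', hR', rfl⟩ := Finset.mem_image.1 (Finsupp.mapDomain_support hR)
    exact hF R' (hz i R' hR')
  · intro i
    rw [Finsupp.sum_mapDomain_index (fun _ => rfl) (fun _ _ _ => rfl)]
    exact h0 i

end LW
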