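import Pool.Agent.H8.LW.Def
import Pool.Agent.H34.ES.Spc

/-! # LW.Tr : the change of coordinates `x' = 36 x + 3 a1^2 + 12 a2`, `y' = 108 (2 y + a1 x + a3)` (complete)

`e ^ n = 6`: `Tp W e` sends the long form to the short form and `o` to `o`, `Sp W e` is its inverse. -/

namespace LW

open ES H68.BB FX

variable {K : Type} [Field K] {s c k : ℕ}

/-- scaling -/
def sm {F : Type} [Field F] (W : Lm K s) (e : F) (P : Pt s F) : Pt s F :=
  ⟨fun i => e ^ W.v i * P.β i, e ^ (2 * W.n) * P.x, e ^ (3 * W.n) * P.y⟩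

/-- from the long form to the short form -/
noncomputable def T0 {F : Type} [Field F] [Algebra K F] (W : Lm K s) (P : Pt s F) : Pt s F :=
  ⟨P.β, 36 * P.x + 3 * ev W.a1 P.β ^ 2 + 12 * ev W.a2 P.β, 108 * (2 * P.y + ev W.a1 P.β * P.x + ev W.a3 P.β)⟩

/-- the `x`-coordinate of the inverse -/
noncomputable def sx {F : Type} [Field F] [Algebra K F] (W : Lm K s) (P : Pt s F) : F :=
  (P.x - 3 * ev W.a1 P.β ^ 2 - 12 * ev W.a2 P.β) * 36⁻¹

/-- from the short form to the long form -/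
noncomputable def S0 {F : Type} [Field F] [Algebra K F] (W : Lm K s) (P : Pt s F) : Pt s F :=
  ⟨P.β, sx W P, (P.y * 108⁻¹ - ev W.a1 P.β * sx W P - ev W.a3 P.β) * 2⁻¹⟩

noncomputable def Tp {F : Type} [Field F] [Algebra K F] (W : Lm K s) (e : K) (P : Pt s F) : Pt s F :=
  sm W (algebraMap K F e)⁻¹ (T0 W P)

noncomputable def Sq {F : Type} [Field F] [Algebra K F] (W : Lm K s) (e : K) (P : Pt s F) : Pt s F :=
  sm W (algebraMap K F e) (S0 W P)

section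
variable {F : Type} [Field F] [Algebra K F]

theorem sm_sm {W : Lm K s} {e : F} (he : e ≠ 0) (P : Pt s F) : sm W e (sm W e⁻¹ P) = P := by
  unfold sm
  refine Pt.ext ?_ ?_ ?_
  · funext i
    show e ^ W.v i * (e⁻¹ ^ W.v i * P.β i) = P.β i
    rw [← mul_assoc, ← mul_pow, mul_inv_cancel₀ he, one_pow, one_mul]
  · show e ^ (2 * W.n) * (e⁻¹ ^ (2 * W.n) * P.x) = P.x
    rw [← mul_assoc, ← mul_pow, mul_inv_cancel₀ he, one_pow, one_mul]
  · show e ^ (3 * W.n) * (e⁻¹ ^ (3 * W.n) * P.y) = P.y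
    rw [← mul_assoc, ← mul_pow, mul_inv_cancel₀ he, one_pow, one_mul]

theorem sx_sm {W : Lm K s} (hW : W.Ok) (e : F) (P : Pt s F) : sx W (sm W e P) = e ^ (2 * W.n) * sx W P := by
  have h1 : ev W.a1 (sm W e P).β = e ^ W.n * ev W.a1 P.β := ev_scale hW.a1 e P.β
  have h2 : ev W.a2 (sm W e P).β = e ^ (2 * W.n) * ev W.a2 P.β := ev_scale hW.a2 e P.β
  unfold sx
  rw [h1, h2]
  show (e ^ (2 * W.n) * P.x - 3 * (e ^ W.n * ev W.a1 P.β) ^ 2 - 12 * (e ^ (2 * W.n) * ev W.a2 P.β)) * 36⁻¹ = _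
  ring

theorem S0_sm {W : Lm K s} (hW : W.Ok) (e : F) (P : Pt s F) : S0 W (sm W e P) = sm W e (S0 W P) := by
  have h1 : ev W.a1 (sm W e P).β = e ^ W.n * ev W.a1 P.β := ev_scale hW.a1 e P.β
  have h3 : ev W.a3 (sm W e P).β = e ^ (3 * W.n) * ev W.a3 P.β := ev_scale hW.a3 e P.β
  refine Pt.ext rfl (sx_sm hW e P) ?_
  show ((sm W e P).y * 108⁻¹ - ev W.a1 (sm W e P).β * sx W (sm W e P) - ev W.a3 (sm W e P).β) * 2⁻¹ =
    e ^ (3 * W.n) * ((P.y * 108⁻¹ - ev W.a1 P.β * sx W P - ev W.a3 P.β) * 2⁻¹)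
  rw [sx_sm hW, h1, h3]
  show (e ^ (3 * W.n) * P.y * 108⁻¹ - e ^ W.n * ev W.a1 P.β * (e ^ (2 * W.n) * sx W P) - e ^ (3 * W.n) * ev W.a3 P.β) * 2⁻¹ = _
  ring

theorem S0_T0 [CharZero F] (W : Lm K s) (P : Pt s F) : S0 W (T0 W P) = P := by
  have h1 : sx W (T0 W P) = P.x := by
    show (36 * P.x + 3 * ev W.a1 P.β ^ 2 + 12 * ev W.a2 P.β - 3 * ev W.a1 P.β ^ 2 - 12 * ev W.a2 P.β) * 36⁻¹ = P.x
    field_simp
    ring
  refine Pt.ext rfl h1 ?_
  show (108 * (2 * P.y + ev W.a1 P.β * P.x + ev W.a3 P.β) * 108⁻¹ - ev W.a1 P.β * sx W (T0 W P) - ev W.a3 P.β) * 2⁻¹ = P.y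
  rw [h1]
  field_simp
  ring

theorem Sq_Tp [CharZero F] {W : Lm K s} (hW : W.Ok) {e : K} (he : e ≠ 0) (P : Pt s F) : Sq W e (Tp W e P) = P := by
  have he' : algebraMap K F e ≠ 0 := (map_ne_zero_iff _ (algebraMap K F).injective).2 he
  unfold Sq Tp
  rw [S0_sm hW, sm_sm he', S0_T0]

/-- the values of `c4`, `c6` -/
theorem ev_c4 (W : Lm K s) (β : Fin s → F) : ev W.c4 β =
    (ev W.a1 β ^ 2 + 4 * ev W.a2 β) ^ 2 - 24 * (2 * ev W.a4 β + ev W.a1 β * ev W.a3 β) := by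
  unfold Lm.c4 Lm.b2 Lm.b4 ev
  simp only [map_sub, map_add, map_mul, map_pow, map_ofNat]

theorem ev_c6 (W : Lm K s) (β : Fin s → F) : ev W.c6 β =
    -(ev W.a1 β ^ 2 + 4 * ev W.a2 β) ^ 3 + 36 * (ev W.a1 β ^ 2 + 4 * ev W.a2 β) * (2 * ev W.a4 β + ev W.a1 β * ev W.a3 β) -
      216 * (ev W.a3 β ^ 2 + 4 * ev W.a6 β) := by
  unfold Lm.c6 Lm.b2 Lm.b4 Lm.b6 ev
  simp only [map_sub, map_add, map_mul, map_pow, map_ofNat, map_neg]

theorem ev_sha (W : Lm K s) (β : Fin s → F) : ev W.sh.a β = 9 * ev W.c4 β := by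
  unfold Lm.sh ev
  simp only [map_mul, map_ofNat]

theorem ev_shb (W : Lm K s) (β : Fin s → F) : ev W.sh.b β = 27 * ev W.c6 β := by
  unfold Lm.sh ev
  simp only [map_mul, map_ofNat]

/-- the equations -/
theorem eqn_T0 (W : Lm K s) (P : Pt s F)
    (h : P.y ^ 2 + ev W.a1 P.β * P.x * P.y + ev W.a3 P.β * P.y =
      P.x ^ 3 + ev W.a2 P.β * P.x ^ 2 + ev W.a4 P.β * P.x + ev W.a6 P.β) :
    (T0 W P).y ^ 2 = (T0 W P).x ^ 3 - 3 * ev W.sh.a P.β * (T0 W P).x - 2 * ev W.sh.b P.β := by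
  rw [ev_sha, ev_shb, ev_c4, ev_c6]
  show (108 * (2 * P.y + ev W.a1 P.β * P.x + ev W.a3 P.β)) ^ 2 = (36 * P.x + 3 * ev W.a1 P.β ^ 2 + 12 * ev W.a2 P.β) ^ 3 -
    3 * (9 * _) * (36 * P.x + 3 * ev W.a1 P.β ^ 2 + 12 * ev W.a2 P.β) - 2 * (27 * _)
  linear_combination 46656 * h

theorem eqn_S0 [CharZero F] (W : Lm K s) (P : Pt s F)
    (h : P.y ^ 2 = P.x ^ 3 - 3 * ev W.sh.a P.β * P.x - 2 * ev W.sh.b P.β) :
    (S0 W P).y ^ 2 + ev W.a1 P.β * (S0 W P).x * (S0 W P).y + ev W.a3 P.β * (S0 W P).y =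
      (S0 W P).x ^ 3 + ev W.a2 P.β * (S0 W P).x ^ 2 + ev W.a4 P.β * (S0 W P).x + ev W.a6 P.β := by
  have hx : 36 * sx W P = P.x - 3 * ev W.a1 P.β ^ 2 - 12 * ev W.a2 P.β := by
    unfold sx
    field_simp
  have hy : 2 * (S0 W P).y = P.y * 108⁻¹ - ev W.a1 P.β * sx W P - ev W.a3 P.β := by
    show 2 * ((P.y * 108⁻¹ - ev W.a1 P.β * sx W P - ev W.a3 P.β) * 2⁻¹) = _
    field_simp
  have hy' : P.y = 108 * (2 * (S0 W P).y + ev W.a1 P.β * sx W P + ev W.a3 P.β) := by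
    rw [hy]
    field_simp
    ring
  have hx' : P.x = 36 * sx W P + 3 * ev W.a1 P.β ^ 2 + 12 * ev W.a2 P.β := by
    rw [hx]
    ring
  rw [ev_sha, ev_shb, ev_c4, ev_c6] at h
  change (S0 W P).y ^ 2 + ev W.a1 P.β * sx W P * (S0 W P).y + ev W.a3 P.β * (S0 W P).y =
      sx W P ^ 3 + ev W.a2 P.β * sx W P ^ 2 + ev W.a4 P.β * sx W P + ev W.a6 P.β
  generalize (S0 W P).y = y at *
  generalize sx W P = x at *
  rw [hx', hy'] at h
  have h46 : (46656 : F) ≠ 0 := by norm_num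
  refine mul_left_cancel₀ h46 ?_
  linear_combination h

theorem T0_o {W : Lm K s} (hW : W.Ok) : T0 W (o s F) = ⟨0, 36, 216⟩ := by
  have h1 : ev W.a1 (0 : Fin s → F) = 0 := ev_zero hW.a1 hW.n
  have h2 : ev W.a2 (0 : Fin s → F) = 0 := ev_zero hW.a2 (by have := hW.n; omega)
  have h3 : ev W.a3 (0 : Fin s → F) = 0 := ev_zero hW.a3 (by have := hW.n; omega)
  refine Pt.ext rfl ?_ ?_
  · show 36 * (1 : F) + 3 * ev W.a1 (0 : Fin s → F) ^ 2 + 12 * ev W.a2 (0 : Fin s → F) = 36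
    rw [h1, h2]
    ring
  · show 108 * (2 * (1 : F) + ev W.a1 (0 : Fin s → F) * 1 + ev W.a3 (0 : Fin s → F)) = 216
    rw [h1, h3]
    ring

theorem Tp_o [CharZero F] {W : Lm K s} (hW : W.Ok) {e : K} (he : e ^ W.n = 6) : Tp W e (o s F) = o s F := by
  have he1 : algebraMap K F e ^ W.n = 6 := by rw [← map_pow, he, map_ofNat]
  have he2 : algebraMap K F e ^ (2 * W.n) = 36 := by
    rw [mul_comm, pow_mul, he1]
    norm_num
  have he3 : algebraMap K F e ^ (3 * W.n) = 216 := by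
    rw [mul_comm, pow_mul, he1]
    norm_num
  unfold Tp
  rw [T0_o hW]
  refine Pt.ext ?_ ?_ ?_
  · funext i
    show _ * (0 : F) = 0
    rw [mul_zero]
  · show (algebraMap K F e)⁻¹ ^ (2 * W.n) * 36 = (1 : F)
    rw [inv_pow, he2]
    norm_num
  · show (algebraMap K F e)⁻¹ ^ (3 * W.n) * 216 = (1 : F)
    rw [inv_pow, he3]
    norm_num

theorem e_ne [CharZero K] {W : Lm K s} (hW : W.Ok) {e : K} (he : e ^ W.n = 6) : e ≠ 0 := by
  rintro rfl
  rw [zero_pow hW.n.ne'] at he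
  norm_num at he

theorem Sq_o [CharZero K] [CharZero F] {W : Lm K s} (hW : W.Ok) {e : K} (he : e ^ W.n = 6) : Sq W e (o s F) = o s F := by
  have h := Sq_Tp (F := F) hW (e_ne hW he) (o s F)
  rwa [Tp_o hW he] at h

/-- nonzero coordinate vectors -/
theorem S0_nz [CharZero F] {W : Lm K s} (hW : W.Ok) {P : Pt s F} (h : P.NZ) : (S0 W P).NZ := by
  by_contra hc
  unfold Pt.NZ at hc
  push Not at hc
  obtain ⟨h1, h2, h3⟩ := hc
  have h0 : P.β = 0 := h1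
  have e1 : ev W.a1 (0 : Fin s → F) = 0 := ev_zero hW.a1 hW.n
  have e2 : ev W.a2 (0 : Fin s → F) = 0 := ev_zero hW.a2 (by have := hW.n; omega)
  have e3 : ev W.a3 (0 : Fin s → F) = 0 := ev_zero hW.a3 (by have := hW.n; omega)
  have h2' : sx W P = 0 := h2
  have h4 : P.x = 0 := by
    unfold sx at h2'
    rw [h0, e1, e2] at h2'
    have h5 := (mul_eq_zero.1 h2').resolve_right (by norm_num)
    rw [← h5]
    ring
  have h6 : P.y = 0 := by
    have h7 : (P.y * 108⁻¹ - ev W.a1 P.β * sx W P - ev W.a3 P.β) * 2⁻¹ = 0 := h3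
    rw [h0, e1, e3, h2'] at h7
    have h8 := (mul_eq_zero.1 h7).resolve_right (by norm_num)
    have h9 : P.y * 108⁻¹ = 0 := by
      rw [← h8]
      ring
    exact (mul_eq_zero.1 h9).resolve_right (by norm_num)
  rcases h with h | h | h
  · exact h h0
  · exact h h4
  · exact h h6

theorem T0_nz [CharZero F] {W : Lm K s} (hW : W.Ok) {P : Pt s F} (h : P.NZ) : (T0 W P).NZ := by
  by_contra hc
  unfold Pt.NZ at hc
  push Not at hc
  obtain ⟨h1, h2, h3⟩ := hc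
  have h4 : T0 W P = ⟨0, 0, 0⟩ := Pt.ext h1 h2 h3
  have h5 := S0_T0 W P
  rw [h4] at h5
  have e1 : ev W.a1 (0 : Fin s → F) = 0 := ev_zero hW.a1 hW.n
  have e2 : ev W.a2 (0 : Fin s → F) = 0 := ev_zero hW.a2 (by have := hW.n; omega)
  have e3 : ev W.a3 (0 : Fin s → F) = 0 := ev_zero hW.a3 (by have := hW.n; omega)
  have e4 : sx W (⟨0, 0, 0⟩ : Pt s F) = 0 := by
    show ((0 : F) - 3 * ev W.a1 (0 : Fin s → F) ^ 2 - 12 * ev W.a2 (0 : Fin s → F)) * 36⁻¹ = 0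
    rw [e1, e2]
    ring
  have e5 : S0 W (⟨0, 0, 0⟩ : Pt s F) = ⟨0, 0, 0⟩ := by
    refine Pt.ext rfl e4 ?_
    show ((0 : F) * 108⁻¹ - ev W.a1 (0 : Fin s → F) * sx W (⟨0, 0, 0⟩ : Pt s F) - ev W.a3 (0 : Fin s → F)) * 2⁻¹ = 0
    rw [e1, e3, e4]
    ring
  rw [e5] at h5
  rw [← h5] at h
  rcases h with h | h | h <;> exact h rfl

theorem sm_nz {W : Lm K s} {e : F} (he : e ≠ 0) {P : Pt s F} (h : P.NZ) : (sm W e P).NZ := by
  rcases h with h | h | h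
  · refine Or.inl fun h1 => h ?_
    funext i
    exact (mul_eq_zero.1 (congrFun h1 i)).resolve_left (pow_ne_zero _ he)
  · exact Or.inr (Or.inl (mul_ne_zero (pow_ne_zero _ he) h))
  · exact Or.inr (Or.inr (mul_ne_zero (pow_ne_zero _ he) h))

/-- scaling preserves the long form -/
theorem OnL_sm {W : Lm K s} (hW : W.Ok) {P : Pt s F} (h : OnL W P) {e : F} (he : e ≠ 0) : OnL W (sm W e P) := by
  obtain ⟨h0, hI, h1⟩ := h
  refine ⟨sm_nz he h0, ?_, ?_⟩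
  · intro f hf
    obtain ⟨m, _, hm⟩ := hW.I f hf
    show ev f (fun i => e ^ W.v i * P.β i) = 0
    rw [ev_scale hm, hI f hf, mul_zero]
  · show (e ^ (3 * W.n) * P.y) ^ 2 + ev W.a1 (fun i => e ^ W.v i * P.β i) * (e ^ (2 * W.n) * P.x) * (e ^ (3 * W.n) * P.y) +
        ev W.a3 (fun i => e ^ W.v i * P.β i) * (e ^ (3 * W.n) * P.y) =
      (e ^ (2 * W.n) * P.x) ^ 3 + ev W.a2 (fun i => e ^ W.v i * P.β i) * (e ^ (2 * W.n) * P.x) ^ 2 +
        ev W.a4 (fun i => e ^ W.v i * P.β i) * (e ^ (2 * W.n) * P.x) + ev W.a6 (fun i => e ^ W.v i * P.β i)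
    rw [ev_scale hW.a1, ev_scale hW.a2, ev_scale hW.a3, ev_scale hW.a4, ev_scale hW.a6]
    linear_combination e ^ (6 * W.n) * h1

/-- the short form is well formed -/
theorem sh_ok {W : Lm K s} (hW : W.Ok) : W.sh.Ok := by
  have hb2 : MvPolynomial.IsWeightedHomogeneous W.v W.b2 (2 * W.n) := by
    unfold Lm.b2
    refine MvPolynomial.IsWeightedHomogeneous.add ?_ ?_
    · have := hW.a1.pow 2
      rwa [smul_eq_mul] at this
    · have := (MvPolynomial.isWeightedHomogeneous_C W.v (4 : K)).mul hW.a2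
      rwa [zero_add, map_ofNat] at this
  have hb4 : MvPolynomial.IsWeightedHomogeneous W.v W.b4 (4 * W.n) := by
    unfold Lm.b4
    refine MvPolynomial.IsWeightedHomogeneous.add ?_ ?_
    · have := (MvPolynomial.isWeightedHomogeneous_C W.v (2 : K)).mul hW.a4
      rwa [zero_add, map_ofNat] at this
    · have := hW.a1.mul hW.a3
      rwa [show W.n + 3 * W.n = 4 * W.n by ring] at this
  have hb6 : MvPolynomial.IsWeightedHomogeneous W.v W.b6 (6 * W.n) := by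
    unfold Lm.b6
    refine MvPolynomial.IsWeightedHomogeneous.add ?_ ?_
    · have := hW.a3.pow 2
      rwa [smul_eq_mul, show 2 * (3 * W.n) = 6 * W.n by ring] at this
    · have := (MvPolynomial.isWeightedHomogeneous_C W.v (4 : K)).mul hW.a6
      rwa [zero_add, map_ofNat] at this
  have hc4 : MvPolynomial.IsWeightedHomogeneous W.v W.c4 (4 * W.n) := by
    unfold Lm.c4
    refine MvPolynomial.IsWeightedHomogeneous.sub ?_ ?_
    · have := hb2.pow 2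
      rwa [smul_eq_mul, show 2 * (2 * W.n) = 4 * W.n by ring] at this
    · have := (MvPolynomial.isWeightedHomogeneous_C W.v (24 : K)).mul hb4
      rwa [zero_add, map_ofNat] at this
  have hc6 : MvPolynomial.IsWeightedHomogeneous W.v W.c6 (6 * W.n) := by
    unfold Lm.c6
    refine MvPolynomial.IsWeightedHomogeneous.sub (MvPolynomial.IsWeightedHomogeneous.add ?_ ?_) ?_
    · have := (hb2.pow 3).neg
      rwa [smul_eq_mul, show 3 * (2 * W.n) = 6 * W.n by ring] at this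
    · have := ((MvPolynomial.isWeightedHomogeneous_C W.v (36 : K)).mul hb2).mul hb4
      rwa [zero_add, map_ofNat, show 2 * W.n + 4 * W.n = 6 * W.n by ring] at this
    · have := (MvPolynomial.isWeightedHomogeneous_C W.v (216 : K)).mul hb6
      rwa [zero_add, map_ofNat] at this
  refine ⟨hW.v, hW.n, hW.I, ?_, ?_⟩
  · have := (MvPolynomial.isWeightedHomogeneous_C W.v (9 : K)).mul hc4
    rwa [zero_add, map_ofNat] at this
  · have := (MvPolynomial.isWeightedHomogeneous_C W.v (27 : K)).mul hc6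
    rwa [zero_add, map_ofNat] at this

theorem OnW_Tp [CharZero K] [CharZero F] {W : Lm K s} (hW : W.Ok) {e : K} (he : e ≠ 0) {P : Pt s F} (h : OnL W P) :
    OnW W.sh (Tp W e P) := by
  have he' : (algebraMap K F e)⁻¹ ≠ 0 := inv_ne_zero ((map_ne_zero_iff _ (algebraMap K F).injective).2 he)
  exact OnW_smul (sh_ok hW) (⟨T0_nz hW h.1, h.2.1, eqn_T0 W P h.2.2⟩ : OnW W.sh (T0 W P)) he'

theorem OnL_Sq [CharZero F] {W : Lm K s} (hW : W.Ok) {e : K} (he : e ≠ 0) {P : Pt s F} (h : OnW W.sh P) :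
    OnL W (Sq W e P) := by
  have he' : algebraMap K F e ≠ 0 := (map_ne_zero_iff _ (algebraMap K F).injective).2 he
  exact OnL_sm hW (⟨S0_nz hW h.1, h.2.1, eqn_S0 W P h.2.2⟩ : OnL W (S0 W P)) he'

end

/-! ### Galois action and specialisation -/

theorem Sq_sigma (W : Lm K s) (e : K) (σ : Om K ≃ₐ[RatFunc K] Om K) (P : Pt s (Om K)) :
    (Sq W e P).map σ = Sq W e (P.map σ) := by
  have hc : ∀ a : K, σ (algebraMap K (Om K) a) = algebraMap K (Om K) a := H67.KH.sigma_cst σ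
  have hs : σ (sx W P) = sx W (P.map σ) := by
    unfold sx
    rw [map_mul, map_sub, map_sub, map_mul, map_mul, map_pow, sigma_ev, sigma_ev, map_inv₀, map_ofNat, map_ofNat, map_ofNat]
    rfl
  refine Pt.ext ?_ ?_ ?_
  · funext i
    show σ (algebraMap K (Om K) e ^ W.v i * P.β i) = algebraMap K (Om K) e ^ W.v i * σ (P.β i)
    rw [map_mul, map_pow, hc]
  · show σ (algebraMap K (Om K) e ^ (2 * W.n) * sx W P) = algebraMap K (Om K) e ^ (2 * W.n) * sx W (P.map σ)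
    rw [map_mul, map_pow, hc, hs]
  · show σ (algebraMap K (Om K) e ^ (3 * W.n) * ((P.y * 108⁻¹ - ev W.a1 P.β * sx W P - ev W.a3 P.β) * 2⁻¹)) =
      algebraMap K (Om K) e ^ (3 * W.n) *
        (((P.map σ).y * 108⁻¹ - ev W.a1 (P.map σ).β * sx W (P.map σ) - ev W.a3 (P.map σ).β) * 2⁻¹)
    rw [map_mul, map_pow, hc, map_mul, map_sub, map_sub, map_mul, map_mul, sigma_ev, sigma_ev, hs, map_inv₀, map_inv₀,
      map_ofNat, map_ofNat]
    rfl

theorem rd_S0 {W : Lm K s} {π : Place K (Om K)} {P : Pt s (Om K)} {p : Pt s K}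
    (h0 : ∀ i, Rd π.V π.φ (P.β i) (p.β i)) (hx : Rd π.V π.φ P.x p.x) (hy : Rd π.V π.φ P.y p.y) :
    (∀ i, Rd π.V π.φ ((S0 W P).β i) ((S0 W p).β i)) ∧ Rd π.V π.φ (S0 W P).x (S0 W p).x ∧ Rd π.V π.φ (S0 W P).y (S0 W p).y := by
  have hc : ∀ a : K, Rd π.V π.φ (algebraMap K (Om K) a) a := π.const
  have hn : ∀ a : K, Rd π.V π.φ ((algebraMap K (Om K) a)⁻¹) a⁻¹ := fun a => by
    rw [← map_inv₀]
    exact hc _
  have h3 : Rd π.V π.φ (3 : Om K) 3 := by have := hc 3; rwa [map_ofNat] at this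
  have h12 : Rd π.V π.φ (12 : Om K) 12 := by have := hc 12; rwa [map_ofNat] at this
  have h36 : Rd π.V π.φ ((36 : Om K)⁻¹) 36⁻¹ := by have := hn 36; rwa [map_ofNat] at this
  have h108 : Rd π.V π.φ ((108 : Om K)⁻¹) 108⁻¹ := by have := hn 108; rwa [map_ofNat] at this
  have h2 : Rd π.V π.φ ((2 : Om K)⁻¹) 2⁻¹ := by have := hn 2; rwa [map_ofNat] at this
  have hs : Rd π.V π.φ (sx W P) (sx W p) :=
    ((hx.sub (h3.mul ((rd_ev W.a1 h0).pow 2))).sub (h12.mul (rd_ev W.a2 h0))).mul h36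
  exact ⟨h0, hs, (((hy.mul h108).sub ((rd_ev W.a1 h0).mul hs)).sub (rd_ev W.a3 h0)).mul h2⟩

theorem Sp_Sq [CharZero K] {W : Lm K s} (hW : W.Ok) {e : K} (he : e ≠ 0) {π : Place K (Om K)} {P : Pt s (Om K)} {p : Pt s K}
    (h : Sp W.sh π P p) : Sp W.wt π (Sq W e P) (Sq W e p) := by
  obtain ⟨hp, d, hd, h0, hx, hy⟩ := h
  refine ⟨sm_nz ((map_ne_zero_iff _ (algebraMap K K).injective).2 he) (S0_nz hW hp), d, hd, ?_⟩
  have h1 := rd_S0 (W := W) (P := sm W d P) (p := p) (π := π) h0 hx hy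
  rw [S0_sm hW] at h1
  obtain ⟨h2, h3, h4⟩ := h1
  have hc : Rd π.V π.φ (algebraMap K (Om K) e) (algebraMap K K e) := π.const e
  refine ⟨fun i => ?_, ?_, ?_⟩
  · have h5 := (hc.pow (W.v i)).mul (h2 i)
    have e5 : d ^ W.wt.v i * (Sq W e P).β i = algebraMap K (Om K) e ^ W.v i * (sm W d (S0 W P)).β i := by
      show d ^ W.v i * (algebraMap K (Om K) e ^ W.v i * (S0 W P).β i) =
        algebraMap K (Om K) e ^ W.v i * (d ^ W.v i * (S0 W P).β i)
      ring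
    rw [e5]
    exact h5
  · have h5 := (hc.pow (2 * W.n)).mul h3
    have e5 : d ^ (2 * W.wt.n) * (Sq W e P).x = algebraMap K (Om K) e ^ (2 * W.n) * (sm W d (S0 W P)).x := by
      show d ^ (2 * W.n) * (algebraMap K (Om K) e ^ (2 * W.n) * (S0 W P).x) =
        algebraMap K (Om K) e ^ (2 * W.n) * (d ^ (2 * W.n) * (S0 W P).x)
      ring
    rw [e5]
    exact h5
  · have h5 := (hc.pow (3 * W.n)).mul h4
    have e5 : d ^ (3 * W.wt.n) * (Sq W e P).y = algebraMap K (Om K) e ^ (3 * W.n) * (sm W d (S0 W P)).y := by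
      show d ^ (3 * W.n) * (algebraMap K (Om K) e ^ (3 * W.n) * (S0 W P).y) =
        algebraMap K (Om K) e ^ (3 * W.n) * (d ^ (3 * W.n) * (S0 W P).y)
      ring
    rw [e5]
    exact h5

end LW
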