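import Pool.Agent.H8.LW.P1
import Pool.Agent.H71.LW.FinL

/-! # LW.Any : zero-cycles on powers of fibre products over `ℙ¹`, long form, all algebraically closed fields (complete) -/

namespace LW

open ES H68.BB FX SCX

variable {K : Type} [Field K] [IsAlgClosed K] {c k : ℕ} {n : Fin c → ℕ} {a1 a2 a3 a4 a6 : Fin c → MvPolynomial (Fin 2) K}

/-- all zero-cycles `z_i` with `(rho j)_* z_i` torsion -/
theorem any_one (hc : 0 < c) (hX : (LP n a1 a2 a3 a4 a6).Ok) (hk : ∑ j, n j ≤ k) {z : Fin k → (Row 2 c K →₀ ℤ)}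
    (hz : ∀ i, ∀ R ∈ (z i).support, OnLX (LP n a1 a2 a3 a4 a6) R)
    (h : ∀ i j, ∃ N : ℕ, 0 < N ∧ N • boxX (fun _ : Fin 1 => (z i).mapDomain (rho j)) ∈ RatLX 1 (LP n a1 a2 a3 a4 a6)) :
    ∃ N : ℕ, 0 < N ∧ N • altzX z ∈ RatLX k (LP n a1 a2 a3 a4 a6) :=
  altzL_mem hX (fun _ hR => LWP.altXL_all K hc hX hk hR) hz h

/-- one surface, or two surfaces with `n = 1`: all zero-cycles of degree zero -/
theorem any_two (hX : (LP n a1 a2 a3 a4 a6).Ok) (hk : ∑ j, n j ≤ k) (hc : c = 1 ∨ (c = 2 ∧ ∀ j, n j = 1))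
    {z : Fin k → (Row 2 c K →₀ ℤ)} (hz : ∀ i, ∀ R ∈ (z i).support, OnLX (LP n a1 a2 a3 a4 a6) R)
    (h0 : ∀ i, ((z i).sum fun _ m => m) = 0) : ∃ N : ℕ, 0 < N ∧ N • altzX z ∈ RatLX k (LP n a1 a2 a3 a4 a6) := by
  have hc' : 0 < c := by rcases hc with h | ⟨h, _⟩ <;> omega
  refine altzL_P1 hX hc (fun j hj R hR => ?_) (fun _ hR => LWP.altXL_all K hc' hX hk hR) hz h0
  have hj' : (LP (fun _ : Fin 1 => n j) (fun _ => a1 j) (fun _ => a2 j) (fun _ => a3 j) (fun _ => a4 j) (fun _ => a6 j) : LD K 2 1).Ok :=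
    ⟨hX.v, fun _ => hX.n j, hX.I, fun _ => hX.a1 j, fun _ => hX.a2 j, fun _ => hX.a3 j, fun _ => hX.a4 j, fun _ => hX.a6 j⟩
  exact LWP.altXL_all K Nat.one_pos hj' (by rw [Finset.univ_unique, Finset.sum_singleton, hj]) hR

end LW
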