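import Pool.Agent.H8.FX.Def

/-! # LW.Def : elliptic surfaces in long Weierstrass form `y^2 + a1 x y + a3 y = x^3 + a2 x^2 + a4 x + a6` and their fibre products
over a base curve (definitions only, no sorry)

The base has homogeneous coordinates `β : Fin s → F` of weights `v i` and a set `I` of weighted homogeneous equations; `x`, `y` have
weights `2 n`, `3 n` and `a_i` is weighted homogeneous of degree `i n`.  Points, rows, the origin `o = (0 : 1 : 1)`, the
specialisation of homogeneous coordinates (it only depends on the weights) and the zero-cycles `alt`, `altX` are those of `ES.Def`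
and `FX.Def`. -/

namespace LW

open ES H68.BB FX

/-- the data of a long Weierstrass model -/
structure Lm (K : Type) [Field K] (s : ℕ) where
  /-- the weights of the coordinates of the base -/
  v : Fin s → ℕ
  /-- `x`, `y` have weights `2n`, `3n` -/
  n : ℕ
  /-- the equations of the base -/
  I : Set (MvPolynomial (Fin s) K)
  a1 : MvPolynomial (Fin s) K
  a2 : MvPolynomial (Fin s) K
  a3 : MvPolynomial (Fin s) K
  a4 : MvPolynomial (Fin s) K
  a6 : MvPolynomial (Fin s) K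

variable {K : Type} [Field K] {s c k : ℕ}

/-- positive weights, weighted homogeneous polynomials -/
structure Lm.Ok (W : Lm K s) : Prop where
  v : ∀ i, 0 < W.v i
  n : 0 < W.n
  I : ∀ f ∈ W.I, ∃ m, 0 < m ∧ MvPolynomial.IsWeightedHomogeneous W.v f m
  a1 : MvPolynomial.IsWeightedHomogeneous W.v W.a1 W.n
  a2 : MvPolynomial.IsWeightedHomogeneous W.v W.a2 (2 * W.n)
  a3 : MvPolynomial.IsWeightedHomogeneous W.v W.a3 (3 * W.n)
  a4 : MvPolynomial.IsWeightedHomogeneous W.v W.a4 (4 * W.n)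
  a6 : MvPolynomial.IsWeightedHomogeneous W.v W.a6 (6 * W.n)

/-- the point lies on the surface `W : y^2 + a1 x y + a3 y = x^3 + a2 x^2 + a4 x + a6` -/
def OnL {F : Type} [Field F] [Algebra K F] (W : Lm K s) (P : Pt s F) : Prop :=
  P.NZ ∧ (∀ f ∈ W.I, ev f P.β = 0) ∧
    P.y ^ 2 + ev W.a1 P.β * P.x * P.y + ev W.a3 P.β * P.y =
      P.x ^ 3 + ev W.a2 P.β * P.x ^ 2 + ev W.a4 P.β * P.x + ev W.a6 P.β

/-- the weights -/
noncomputable def Lm.wt (W : Lm K s) : Wm K s := ⟨W.v, W.n, ∅, 0, 0⟩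

/-- the usual quantities `b2`, `b4`, `b6`, `c4`, `c6` -/
noncomputable def Lm.b2 (W : Lm K s) : MvPolynomial (Fin s) K := W.a1 ^ 2 + 4 * W.a2
noncomputable def Lm.b4 (W : Lm K s) : MvPolynomial (Fin s) K := 2 * W.a4 + W.a1 * W.a3
noncomputable def Lm.b6 (W : Lm K s) : MvPolynomial (Fin s) K := W.a3 ^ 2 + 4 * W.a6
noncomputable def Lm.c4 (W : Lm K s) : MvPolynomial (Fin s) K := W.b2 ^ 2 - 24 * W.b4
noncomputable def Lm.c6 (W : Lm K s) : MvPolynomial (Fin s) K := -W.b2 ^ 3 + 36 * W.b2 * W.b4 - 216 * W.b6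

/-- zero-cycles of `W^k` rationally equivalent to zero (compare `ES.RatEq`) -/
noncomputable def RatL (k : ℕ) (W : Lm K s) : AddSubgroup (Cyc k s K) :=
  AddSubgroup.closure {z | ∃ (S : Multiset (Fin k → Pt s (Om K))) (π π' : Place K (Om K))
    (C C' : Multiset (Fin k → Pt s K)), (∀ P ∈ S, ∀ i, OnL W (P i)) ∧ GalStable S ∧ Multiset.Rel (SpT W.wt π) S C ∧
    Multiset.Rel (SpT W.wt π') S C' ∧ z = cyc C - cyc C'}

/-- the data: a base curve and `c` long Weierstrass models over it -/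
structure LD (K : Type) [Field K] (s c : ℕ) where
  /-- the weights of the coordinates of the base -/
  v : Fin s → ℕ
  /-- the equations of the base -/
  I : Set (MvPolynomial (Fin s) K)
  /-- `x`, `y` of the `j`-th surface have weights `2 n_j`, `3 n_j` -/
  n : Fin c → ℕ
  a1 : Fin c → MvPolynomial (Fin s) K
  a2 : Fin c → MvPolynomial (Fin s) K
  a3 : Fin c → MvPolynomial (Fin s) K
  a4 : Fin c → MvPolynomial (Fin s) K
  a6 : Fin c → MvPolynomial (Fin s) K

/-- the `j`-th surface -/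
def LD.L (X : LD K s c) (j : Fin c) : Lm K s := ⟨X.v, X.n j, X.I, X.a1 j, X.a2 j, X.a3 j, X.a4 j, X.a6 j⟩

/-- positive weights, weighted homogeneous polynomials -/
structure LD.Ok (X : LD K s c) : Prop where
  v : ∀ i, 0 < X.v i
  n : ∀ j, 0 < X.n j
  I : ∀ f ∈ X.I, ∃ m, 0 < m ∧ MvPolynomial.IsWeightedHomogeneous X.v f m
  a1 : ∀ j, MvPolynomial.IsWeightedHomogeneous X.v (X.a1 j) (X.n j)
  a2 : ∀ j, MvPolynomial.IsWeightedHomogeneous X.v (X.a2 j) (2 * X.n j)
  a3 : ∀ j, MvPolynomial.IsWeightedHomogeneous X.v (X.a3 j) (3 * X.n j)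
  a4 : ∀ j, MvPolynomial.IsWeightedHomogeneous X.v (X.a4 j) (4 * X.n j)
  a6 : ∀ j, MvPolynomial.IsWeightedHomogeneous X.v (X.a6 j) (6 * X.n j)

theorem LD.Ok.L {X : LD K s c} (h : X.Ok) (j : Fin c) : (X.L j).Ok :=
  ⟨h.v, h.n j, h.I, h.a1 j, h.a2 j, h.a3 j, h.a4 j, h.a6 j⟩

/-- the weights -/
noncomputable def LD.wt (X : LD K s c) : XD K s c := ⟨X.v, ∅, X.n, 0, 0⟩

/-- the row is a point of the fibre product `X` (compare `FX.OnX`) -/
structure OnLX {F : Type} [Field F] [Algebra K F] (X : LD K s c) (R : Row s c F) : Prop where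
  ne : R.β ≠ 0
  I : ∀ f ∈ X.I, ev f R.β = 0
  on : ∀ j, OnL (X.L j) (R.P j)
  ov : ∀ j, Over X.v R.β (R.P j).β

/-- zero-cycles of `X^k` rationally equivalent to zero (compare `FX.RatX`) -/
noncomputable def RatLX (k : ℕ) (X : LD K s c) : AddSubgroup (CycX k s c K) :=
  AddSubgroup.closure {z | ∃ (S : Multiset (Fin k → Row s c (Om K))) (π π' : Place K (Om K))
    (C C' : Multiset (Fin k → Row s c K)), (∀ R ∈ S, ∀ i, OnLX X (R i)) ∧ GalX S ∧ Multiset.Rel (SpX X.wt π) S C ∧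
    Multiset.Rel (SpX X.wt π') S C' ∧ z = cycX C - cycX C'}

/-- the inverse `(β : x : - y - a1 x - a3)` of the point `P` -/
noncomputable def ngL {F : Type} [Field F] [Algebra K F] (W : Lm K s) (P : Pt s F) : Pt s F :=
  ⟨P.β, P.x, -P.y - ev W.a1 P.β * P.x - ev W.a3 P.β⟩

/-- `P` or its inverse -/
noncomputable def sgL {F : Type} [Field F] [Algebra K F] (W : Lm K s) (e : ℤˣ) (P : Pt s F) : Pt s F := if e = 1 then P else ngL W P

/-- the sum over the group `G = {(ε, σ) : ∏ ε_ij = sgn(σ)^c}` of the points `(ε_i R_σ(i))_i` -/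
noncomputable def orbL (X : LD K s c) (R : Fin k → Row s c K) : CycX k s c K :=
  ∑ σ : Equiv.Perm (Fin k), ∑ ε ∈ (Finset.univ : Finset (Fin k → Fin c → ℤˣ)).filter
    (fun ε => ∏ i, ∏ j, ε i j = Equiv.Perm.sign σ ^ c),
    ptX (fun i => ⟨(R (σ i)).β, fun j => sgL (X.L j) (ε i j) ((R (σ i)).P j)⟩)

/-- the short form `y^2 = x^3 - 27 c4 x - 54 c6` -/
noncomputable def Lm.sh (W : Lm K s) : Wm K s := ⟨W.v, W.n, W.I, 9 * W.c4, 27 * W.c6⟩

/-- the short forms of the `c` surfaces -/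
noncomputable def LD.sh (X : LD K s c) : XD K s c := ⟨X.v, X.I, X.n, fun j => 9 * (X.L j).c4, fun j => 27 * (X.L j).c6⟩

/-- one surface over `ℙ¹` -/
def L1 (n : ℕ) (a1 a2 a3 a4 a6 : MvPolynomial (Fin 2) K) : Lm K 2 := ⟨fun _ => 1, n, ∅, a1, a2, a3, a4, a6⟩

/-- `c` surfaces over `ℙ¹` -/
def LP (n : Fin c → ℕ) (a1 a2 a3 a4 a6 : Fin c → MvPolynomial (Fin 2) K) : LD K 2 c := ⟨fun _ => 1, ∅, n, a1, a2, a3, a4, a6⟩

end LW
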