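import Pool.Agent.H8.LW.Tr
import Pool.Agent.H8.SC.AltZ

/-! # LW.Mdl : from tuples of points to zero-cycles, for any closed condition on rows (complete, any field)

`Mdl`: weights and conditions on the rows over `K` and over `Om K`.  `RatM k M` is the group of zero-cycles rationally equivalent to zero
as in `FX.Def` (`RatLX_eq`: for the long form it is `RatLX k X`). -/

namespace LW

open ES H68.BB FX SCX

/-- weights and conditions -/
structure Mdl (K : Type) [Field K] (s c : ℕ) where
  wt : XD K s c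
  OK : Row s c K → Prop
  OO : Row s c (Om K) → Prop

variable {K : Type} [Field K] {s c c' k : ℕ}

/-- what is used about the conditions -/
structure Mdl.Ok (M : Mdl K s c) : Prop where
  cst : ∀ R, M.OK R → M.OO (R.map (algebraMap K (Om K)))
  ne : ∀ R, M.OK R → R.β ≠ 0
  nz : ∀ R, M.OK R → ∀ j, (R.P j).NZ
  rK : ∀ J R, M.OK R → M.OK (rJ J R)
  rO : ∀ J R, M.OO R → M.OO (rJ J R)

/-- zero-cycles rationally equivalent to zero -/
noncomputable def RatM (k : ℕ) (M : Mdl K s c) : AddSubgroup (CycX k s c K) :=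
  AddSubgroup.closure {z | ∃ (S : Multiset (Fin k → Row s c (Om K))) (π π' : Place K (Om K))
    (C C' : Multiset (Fin k → Row s c K)), (∀ R ∈ S, ∀ i, M.OO (R i)) ∧ GalX S ∧ Multiset.Rel (SpX M.wt π) S C ∧
    Multiset.Rel (SpX M.wt π') S C' ∧ z = cycX C - cycX C'}

variable {M : Mdl K s c} {M' : Mdl K s c'}

/-- the push-forward of a subgroup generated by fibres of families -/
theorem RatM_push {m : ℕ} (FO : (Fin m → Row s c' (Om K)) → Fin k → Row s c (Om K))
    (FK : (Fin m → Row s c' K) → Fin k → Row s c K) (hon : ∀ R, (∀ i, M'.OO (R i)) → ∀ i, M.OO (FO R i))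
    (hσ : ∀ (σ : Om K ≃ₐ[RatFunc K] Om K) R, (fun i => (FO R i).map σ) = FO (fun i => (R i).map σ))
    (hsp : ∀ (π : Place K (Om K)) R r, SpX M'.wt π R r → SpX M.wt π (FO R) (FK r))
    {z : CycX m s c' K} (hz : z ∈ RatM m M') : z.mapDomain FK ∈ RatM k M := by
  unfold RatM at hz
  induction hz using AddSubgroup.closure_induction with
  | mem z hz =>
    obtain ⟨S, π, π', C, C', hS, hG, h1, h2, rfl⟩ := hz
    have e : ((cycX C - cycX C').mapDomain FK : CycX k s c K) = cycX (C.map FK) - cycX (C'.map FK) := by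
      have h3 : ∀ a b : CycX m s c' K, (a - b).mapDomain FK = a.mapDomain FK - b.mapDomain FK := fun a b =>
        map_sub (Finsupp.mapDomain.addMonoidHom FK : CycX m s c' K →+ CycX k s c K) a b
      rw [h3]
      exact congrArg₂ _ (cycX_push FK C) (cycX_push FK C')
    rw [e]
    refine AddSubgroup.subset_closure ⟨S.map FO, π, π', C.map FK, C'.map FK, ?_, ?_, ?_, ?_, rfl⟩
    · intro T hT
      obtain ⟨Q, hQ, rfl⟩ := Multiset.mem_map.1 hT
      exact hon Q (hS Q hQ)
    · intro σ
      rw [Multiset.map_map]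
      have e2 : ((fun (R : Fin k → Row s c (Om K)) i => (R i).map σ) ∘ FO) = FO ∘ fun R i => (R i).map σ := by
        funext R
        exact hσ σ R
      rw [e2, ← Multiset.map_map, hG σ]
    · rw [Multiset.rel_map]
      exact h1.mono fun Q _ q _ hq => hsp π Q q hq
    · rw [Multiset.rel_map]
      exact h2.mono fun Q _ q _ hq => hsp π' Q q hq
  | zero =>
    rw [Finsupp.mapDomain_zero]
    exact AddSubgroup.zero_mem _
  | add x y _ _ hx hy =>
    rw [Finsupp.mapDomain_add]
    exact AddSubgroup.add_mem _ hx hy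
  | neg x _ hx =>
    have h3 : (-x).mapDomain FK = -x.mapDomain FK := map_neg (Finsupp.mapDomain.addMonoidHom FK : CycX m s c' K →+ CycX k s c K) x
    rw [h3]
    exact AddSubgroup.neg_mem _ hx

theorem SpR_cstM (hM : M.Ok) (π : Place K (Om K)) {R : Row s c K} (h : M.OK R) :
    SpR M.wt π (R.map (algebraMap K (Om K))) R := by
  refine ⟨⟨hM.ne R h, 1, one_ne_zero, fun i => ?_⟩, fun j => Sp_cst π (hM.nz R h j)⟩
  rw [one_pow, one_mul]
  exact π.const _

/-- one slot -/
theorem RatM_slot (hM : M.Ok) {R : Fin k → Row s c K} {i : Fin k} (hR : ∀ j, j ≠ i → M.OK (R j)) {z : CycX 1 s c K}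
    (hz : z ∈ RatM 1 M) : z.mapDomain (fun Q : Fin 1 → Row s c K => Function.update R i (Q 0)) ∈ RatM k M := by
  refine RatM_push (fun Q => Function.update (fun j => (R j).map (algebraMap K (Om K))) i (Q 0)) _ ?_ ?_ ?_ hz
  · intro Q hQ j
    by_cases hj : j = i
    · subst hj; rw [Function.update_self]; exact hQ 0
    · rw [Function.update_of_ne hj]; exact hM.cst _ (hR j hj)
  · intro σ Q
    funext j
    by_cases hj : j = i
    · subst hj; rw [Function.update_self, Function.update_self]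
    · rw [Function.update_of_ne hj, Function.update_of_ne hj]; exact map_cstR σ _
  · intro π Q q hq j
    by_cases hj : j = i
    · subst hj; rw [Function.update_self, Function.update_self]; exact hq 0
    · rw [Function.update_of_ne hj, Function.update_of_ne hj]; exact SpR_cstM hM π (hR j hj)

/-- one slot of an exterior product -/
theorem boxM_slot (hM : M.Ok) {z : Fin k → (Row s c K →₀ ℤ)} (i : Fin k) (hz : ∀ j, j ≠ i → ∀ R ∈ (z j).support, M.OK R)
    {w : Row s c K →₀ ℤ} (hw : boxX (fun _ : Fin 1 => w) ∈ RatM 1 M) : boxX (Function.update z i w) ∈ RatM k M := by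
  classical
  rw [boxX_update z i w ⟨0, fun _ => o s K⟩]
  refine AddSubgroup.sum_mem _ fun r hr => AddSubgroup.zsmul_mem _ ?_ _
  rw [← boxX_ins]
  refine RatM_slot hM (fun j hj => ?_) hw
  have h1 := Fintype.mem_piFinset.1 hr j
  rw [if_neg hj] at h1
  exact hz j hj _ h1

/-- choosing columns -/
theorem RatM_colm {g : Fin c → Option (Fin c')} (hon : ∀ R, M'.OO R → M.OO (colm g R)) (hg : Cmpt M.wt M'.wt g)
    {z : CycX k s c' K} (hz : z ∈ RatM k M') : z.mapDomain (fun R i => colm g (R i)) ∈ RatM k M :=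
  RatM_push (fun R i => colm g (R i)) (fun R i => colm g (R i)) (fun _ h i => hon _ (h i))
    (fun σ R => funext fun i => colm_map σ (R i)) (fun _ _ _ h i => colm_sp hg (h i)) hz

theorem rJ_ratM (hM : M.Ok) (J : Finset (Fin c)) {z : Row s c K →₀ ℤ} (hz : boxX (fun _ : Fin 1 => z) ∈ RatM 1 M) :
    boxX (fun _ : Fin 1 => z.mapDomain (rJ J)) ∈ RatM 1 M := by
  have h0 : ∀ R, M.OO R → M.OO (colm (gJ J) R) := fun R hR => by
    have h := hM.rO J R hR
    rwa [show rJ J R = colm (gJ J) R from ?_] at h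
    unfold rJ colm gJ
    refine Row.ext rfl ?_
    funext j
    show (if j ∈ J then o s (Om K) else R.P j) = (if j ∈ J then none else some j : Option (Fin c)).elim (o s (Om K)) R.P
    split_ifs <;> rfl
  have h1 := RatM_colm h0 (gJ_cmpt (X := M.wt) J) hz
  rw [boxX_one] at h1 ⊢
  rw [← Finsupp.mapDomain_comp] at h1 ⊢
  have e : (fun (R : Fin 1 → Row s c K) (i : Fin 1) => colm (gJ J) (R i)) ∘ (fun r (_ : Fin 1) => r) =
      (fun r (_ : Fin 1) => r) ∘ rJ J := by
    funext R i
    exact (rJ_colm J R).symm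
  rwa [e] at h1

/-- the zero-cycles which are torsion modulo rational equivalence -/
noncomputable def nulM (M : Mdl K s c) : AddSubgroup (Row s c K →₀ ℤ) :=
  (tor (RatM 1 M)).comap (Finsupp.mapDomain.addMonoidHom fun (r : Row s c K) (_ : Fin 1) => r)

theorem mem_nulM {z : Row s c K →₀ ℤ} : z ∈ nulM M ↔ boxX (fun _ : Fin 1 => z) ∈ tor (RatM 1 M) := by
  rw [boxX_one]
  exact Iff.rfl

/-- the zero-cycles supported on `M` -/
noncomputable def OnM (M : Mdl K s c) : Submodule ℤ (Row s c K →₀ ℤ) := Finsupp.supported ℤ ℤ {R | M.OK R}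

theorem mem_OnM {z : Row s c K →₀ ℤ} : z ∈ OnM M ↔ ∀ R ∈ z.support, M.OK R := by
  unfold OnM
  rw [Finsupp.mem_supported]
  exact ⟨fun h R hR => h (Finset.mem_coe.2 hR), fun h R hR => h R (Finset.mem_coe.1 hR)⟩

theorem single_OnM {R : Row s c K} (h : M.OK R) (n : ℤ) : Finsupp.single R n ∈ OnM M :=
  Finsupp.single_mem_supported ℤ n h

theorem brkz_OnM (hM : M.Ok) {z : Row s c K →₀ ℤ} (hz : z ∈ OnM M) : brkz z ∈ OnM M := by
  unfold brkz
  refine Submodule.sum_mem _ fun R hR => Submodule.smul_mem _ _ ?_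
  unfold brk
  exact Submodule.sum_mem _ fun J _ => Submodule.smul_mem _ _ (single_OnM (hM.rK J R (mem_OnM.1 hz R hR)) 1)

/-- a torsion cycle in one slot -/
theorem boxM_nul (hM : M.Ok) {z : Fin k → (Row s c K →₀ ℤ)} (i : Fin k) (hz : ∀ j, j ≠ i → z j ∈ OnM M) {w : Row s c K →₀ ℤ}
    (hw : w ∈ nulM M) : boxX (Function.update z i w) ∈ tor (RatM k M) := by
  classical
  obtain ⟨N, hN, h⟩ := mem_nulM.1 hw
  refine ⟨N, hN, ?_⟩
  have h1 : boxX (fun _ : Fin 1 => N • w) = N • boxX (fun _ : Fin 1 => w) := by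
    rw [boxX_one, boxX_one]
    exact map_nsmul (Finsupp.mapDomain.addMonoidHom fun (r : Row s c K) (_ : Fin 1) => r) N w
  rw [← h1] at h
  have h2 := boxM_slot hM (z := z) i (fun j hj => mem_OnM.1 (hz j hj)) h
  have h3 := (boxXM k (Row s c K)).map_update_smul z i (N : ℤ) w
  rw [boxXM_apply, boxXM_apply, natCast_zsmul, natCast_zsmul] at h3
  rwa [h3] at h2

/-- congruence modulo torsion cycles -/
theorem boxM_congr (hM : M.Ok) {z z' : Fin k → (Row s c K →₀ ℤ)} (hz : ∀ i, z i ∈ OnM M) (hz' : ∀ i, z' i ∈ OnM M)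
    (h : ∀ i, z i - z' i ∈ nulM M) : boxX z - boxX z' ∈ tor (RatM k M) := by
  classical
  have key : ∀ S : Finset (Fin k), boxX z - boxX (fun i => if i ∈ S then z' i else z i) ∈ tor (RatM k M) := by
    intro S
    induction S using Finset.induction_on with
    | empty =>
      simp only [Finset.notMem_empty, if_false]
      rw [sub_self]
      exact AddSubgroup.zero_mem _
    | insert a S ha ih =>
      set u : Fin k → (Row s c K →₀ ℤ) := fun i => if i ∈ S then z' i else z i with hu
      have e1 : (fun i => if i ∈ insert a S then z' i else z i) = Function.update u a (z' a) := by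
        funext i
        by_cases hi : i = a
        · subst hi
          rw [Function.update_self, if_pos (Finset.mem_insert_self _ _)]
        · rw [Function.update_of_ne hi, hu]
          simp only [Finset.mem_insert, hi, false_or]
      have e2 : u = Function.update u a (z a) := by
        funext i
        by_cases hi : i = a
        · subst hi
          rw [Function.update_self, hu]
          simp only [if_neg ha]
        · rw [Function.update_of_ne hi]
      have h1 := boxM_nul hM (z := u) a (fun j _ => by rw [hu]; dsimp only; split_ifs; exacts [hz' j, hz j]) (h a)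
      have h2 := (boxXM k (Row s c K)).map_update_sub u a (z a) (z' a)
      rw [boxXM_apply, boxXM_apply, boxXM_apply, ← e2] at h2
      rw [h2] at h1
      rw [e1]
      have h3 := AddSubgroup.add_mem _ ih h1
      rwa [sub_add_sub_cancel] at h3
  have h1 := key Finset.univ
  simp only [Finset.mem_univ, if_true] at h1
  exact h1

/-- a zero-cycle whose images under the maps `rho j` are torsion is equal to `⟨z⟩` up to torsion -/
theorem sub_brkzM (hM : M.Ok) {z : Row s c K →₀ ℤ} (h : ∀ j, z.mapDomain (rho j) ∈ nulM M) : z - brkz z ∈ nulM M := by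
  classical
  rw [brkz_eq, ← Finset.add_sum_erase Finset.univ _ (Finset.mem_univ (∅ : Finset (Fin c))), rJ_empty, Finset.card_empty,
    pow_zero, one_smul, Finsupp.mapDomain_id, ← sub_sub, sub_self, zero_sub]
  refine AddSubgroup.neg_mem _ (AddSubgroup.sum_mem _ fun J hJ => AddSubgroup.zsmul_mem _ ?_ _)
  obtain ⟨j, hj⟩ := Finset.nonempty_iff_ne_empty.2 (Finset.ne_of_mem_erase hJ)
  rw [rJ_rho hj, Finsupp.mapDomain_comp, mem_nulM]
  obtain ⟨N, hN, h1⟩ := mem_nulM.1 (h j)
  refine ⟨N, hN, ?_⟩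
  have e : ∀ w : Row s c K →₀ ℤ, N • boxX (fun _ : Fin 1 => w) = boxX (fun _ : Fin 1 => N • w) := by
    intro w
    rw [boxX_one, boxX_one]
    exact (map_nsmul (Finsupp.mapDomain.addMonoidHom fun (r : Row s c K) (_ : Fin 1) => r) N w).symm
  rw [e] at h1 ⊢
  have h2 := rJ_ratM hM J h1
  have h3 := map_nsmul (Finsupp.mapDomain.addMonoidHom (rJ J : Row s c K → Row s c K) : (Row s c K →₀ ℤ) →+ (Row s c K →₀ ℤ)) N
    (z.mapDomain (rho j))
  have h4 : (N • z.mapDomain (rho j)).mapDomain (rJ J) = N • (z.mapDomain (rho j)).mapDomain (rJ J) := h3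
  rwa [h4] at h2

/-- from tuples of points to zero-cycles -/
theorem altzM_mem (hM : M.Ok) (hA : ∀ R : Fin k → Row s c K, (∀ i, M.OK (R i)) → ∃ N : ℕ, 0 < N ∧ N • altX R ∈ RatM k M)
    {z : Fin k → (Row s c K →₀ ℤ)} (hz : ∀ i, ∀ R ∈ (z i).support, M.OK R)
    (h : ∀ i j, ∃ N : ℕ, 0 < N ∧ N • boxX (fun _ : Fin 1 => (z i).mapDomain (rho j)) ∈ RatM 1 M) :
    ∃ N : ℕ, 0 < N ∧ N • altzX z ∈ RatM k M := by
  classical
  rw [← mem_tor]
  have hz' : ∀ i, z i ∈ OnM M := fun i => mem_OnM.2 (hz i)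
  have h1 : altzX z - altzX (fun i => brkz (z i)) ∈ tor (RatM k M) := by
    unfold altzX
    rw [← Finset.sum_sub_distrib]
    refine AddSubgroup.sum_mem _ fun σ _ => ?_
    rw [← smul_sub]
    exact AddSubgroup.zsmul_mem _ (boxM_congr hM (fun i => hz' _) (fun i => brkz_OnM hM (hz' _))
      (fun i => sub_brkzM hM fun j => mem_nulM.2 (h (σ i) j))) _
  have h2 : altzX (fun i => brkz (z i)) ∈ tor (RatM k M) := by
    rw [altzX_brkz]
    refine AddSubgroup.sum_mem _ fun P hP => AddSubgroup.zsmul_mem _ (hA P fun i => ?_) _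
    exact hz i _ (Fintype.mem_piFinset.1 hP i)
  have h3 := AddSubgroup.add_mem _ h1 h2
  rwa [sub_add_cancel] at h3

/-! ### the long form -/

/-- the conditions of the long form -/
noncomputable def LD.mdl (X : LD K s c) : Mdl K s c := ⟨X.wt, OnLX X, OnLX X⟩

theorem RatLX_eq (X : LD K s c) : RatLX k X = RatM k X.mdl := rfl

theorem OnL_o {W : Lm K s} (hW : W.Ok) (F : Type) [Field F] [Algebra K F] : OnL W (o s F) := by
  refine ⟨Or.inr (Or.inl one_ne_zero), ?_, ?_⟩
  · intro f hf
    obtain ⟨m, hm, h⟩ := hW.I f hf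
    exact ev_zero h hm
  · have h1 : ev W.a1 (0 : Fin s → F) = 0 := ev_zero hW.a1 hW.n
    have h2 : ev W.a2 (0 : Fin s → F) = 0 := ev_zero hW.a2 (by have := hW.n; omega)
    have h3 : ev W.a3 (0 : Fin s → F) = 0 := ev_zero hW.a3 (by have := hW.n; omega)
    have h4 : ev W.a4 (0 : Fin s → F) = 0 := ev_zero hW.a4 (by have := hW.n; omega)
    have h6 : ev W.a6 (0 : Fin s → F) = 0 := ev_zero hW.a6 (by have := hW.n; omega)
    show (1 : F) ^ 2 + ev W.a1 (0 : Fin s → F) * 1 * 1 + ev W.a3 (0 : Fin s → F) * 1 =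
      1 ^ 3 + ev W.a2 (0 : Fin s → F) * 1 ^ 2 + ev W.a4 (0 : Fin s → F) * 1 + ev W.a6 (0 : Fin s → F)
    rw [h1, h2, h3, h4, h6]
    ring

theorem OnL_cst {W : Lm K s} {p : Pt s K} (h : OnL W p) : OnL W (p.map (algebraMap K (Om K))) := by
  have hinj := (algebraMap K (Om K)).injective
  obtain ⟨h0, hI, h1⟩ := h
  refine ⟨?_, ?_, ?_⟩
  · rcases h0 with h | h | h
    · refine Or.inl fun h1 => h ?_
      funext i
      exact (map_eq_zero_iff _ hinj).1 (congrFun h1 i)
    · exact Or.inr (Or.inl ((map_ne_zero_iff _ hinj).2 h))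
    · exact Or.inr (Or.inr ((map_ne_zero_iff _ hinj).2 h))
  · intro f hf
    show ev f (fun i => algebraMap K (Om K) (p.β i)) = 0
    rw [ev_cst, hI f hf, map_zero]
  · show (algebraMap K (Om K) p.y) ^ 2 + ev W.a1 (fun i => algebraMap K (Om K) (p.β i)) * algebraMap K (Om K) p.x *
        algebraMap K (Om K) p.y + ev W.a3 (fun i => algebraMap K (Om K) (p.β i)) * algebraMap K (Om K) p.y =
      (algebraMap K (Om K) p.x) ^ 3 + ev W.a2 (fun i => algebraMap K (Om K) (p.β i)) * algebraMap K (Om K) p.x ^ 2 +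
        ev W.a4 (fun i => algebraMap K (Om K) (p.β i)) * algebraMap K (Om K) p.x + ev W.a6 (fun i => algebraMap K (Om K) (p.β i))
    rw [ev_cst, ev_cst, ev_cst, ev_cst, ev_cst]
    have h2 := congrArg (algebraMap K (Om K)) h1
    simpa only [map_add, map_mul, map_pow] using h2

theorem OnLX_cst {X : LD K s c} {R : Row s c K} (h : OnLX X R) : OnLX X (R.map (algebraMap K (Om K))) := by
  have hinj := (algebraMap K (Om K)).injective
  refine ⟨?_, ?_, fun j => OnL_cst (h.on j), fun j => ?_⟩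
  · intro h1
    apply h.ne
    funext i
    exact (map_eq_zero_iff _ hinj).1 (congrFun h1 i)
  · intro f hf
    show ev f (fun i => algebraMap K (Om K) (R.β i)) = 0
    rw [ev_cst, h.I f hf, map_zero]
  · rcases h.ov j with h1 | ⟨d, hd, h1⟩
    · left
      funext i
      show algebraMap K (Om K) ((R.P j).β i) = 0
      rw [h1, Pi.zero_apply, map_zero]
    · right
      refine ⟨algebraMap K (Om K) d, (map_ne_zero_iff _ hinj).2 hd, ?_⟩
      funext i
      show algebraMap K (Om K) ((R.P j).β i) = algebraMap K (Om K) d ^ X.v i * algebraMap K (Om K) (R.β i)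
      rw [h1, map_mul, map_pow]

theorem OnLX_rJ {X : LD K s c} (hX : X.Ok) {F : Type} [Field F] [Algebra K F] (J : Finset (Fin c)) {R : Row s c F}
    (h : OnLX X R) : OnLX X (rJ J R) := by
  refine ⟨h.ne, h.I, fun j => ?_, fun j => ?_⟩
  · show OnL (X.L j) (if j ∈ J then o s F else R.P j)
    split_ifs
    · exact OnL_o (hX.L j) F
    · exact h.on j
  · show Over X.v R.β (if j ∈ J then o s F else R.P j).β
    split_ifs
    · exact Or.inl rfl
    · exact h.ov j

theorem M_ok {X : LD K s c} (hX : X.Ok) : X.mdl.Ok :=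
  ⟨fun _ h => OnLX_cst h, fun _ h => h.ne, fun _ h j => (h.on j).1, fun J _ h => OnLX_rJ hX J h, fun J _ h => OnLX_rJ hX J h⟩

/-- from tuples of points to zero-cycles, long form, any field and any base -/
theorem altzL_mem {X : LD K s c} (hX : X.Ok)
    (hA : ∀ R : Fin k → Row s c K, (∀ i, OnLX X (R i)) → ∃ N : ℕ, 0 < N ∧ N • altX R ∈ RatLX k X)
    {z : Fin k → (Row s c K →₀ ℤ)} (hz : ∀ i, ∀ R ∈ (z i).support, OnLX X R)
    (h : ∀ i j, ∃ N : ℕ, 0 < N ∧ N • boxX (fun _ : Fin 1 => (z i).mapDomain (rho j)) ∈ RatLX 1 X) :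
    ∃ N : ℕ, 0 < N ∧ N • altzX z ∈ RatLX k X :=
  altzM_mem (M := X.mdl) (M_ok hX) hA hz h

end LW
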