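import Pool.Agent.H8.LW.Mdl
import Pool.Agent.H8.SC.NegX

/-! # LW.NegL : `[.., (β; .., P, ..), ..] + [.., (β; .., -P, ..), ..] = 2 [.., (β; .., o, ..), ..]` modulo `RatLX k X` (complete, any
algebraically closed field) -/

namespace LW

open ES H68.BB FX SCX Polynomial
open H67.KH (mem_of_root mem_of_cubic rd_of_mem rd_cst sigma_cst sigma_tt roots_rd roots_sigma)

variable {K : Type} [Field K] [IsAlgClosed K] {s c k : ℕ} {W : Lm K s} {π : Place K (Om K)}

/-- an integral base point and `x` not integral: the specialisation is `o` -/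
theorem Sp_infL (hW : W.Ok) {P : Pt s (Om K)} (h : OnL W P) (hβ : ∀ i, P.β i ∈ π.V) (hx : P.x ∉ π.V) :
    Sp W.wt π P (o s K) := by
  have := π.isLocal
  have hn := hW.n
  choose β' r0 using fun i => rd_of_mem (hβ i)
  have hx0 : P.x ≠ 0 := by
    intro h1
    rw [h1] at hx
    exact hx π.V.zero_mem
  have hu : Rd π.V π.φ P.x⁻¹ 0 := Rd.inv_zero hx
  have hw : P.y * P.x⁻¹ ∉ π.V := by
    intro hwV
    apply hx
    have e : P.x = (P.y * P.x⁻¹) ^ 2 + ev W.a1 P.β * (P.y * P.x⁻¹) + ev W.a3 P.β * (P.x⁻¹ * (P.y * P.x⁻¹)) -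
        (ev W.a2 P.β + ev W.a4 P.β * P.x⁻¹ + ev W.a6 P.β * P.x⁻¹ ^ 2) := by
      have h1 := h.2.2
      field_simp
      linear_combination -h1
    have hv : ∀ q : MvPolynomial (Fin s) K, ev q P.β ∈ π.V := fun q => (rd_ev q r0).mem
    rw [e]
    exact π.V.sub_mem (π.V.add_mem _ _ (π.V.add_mem _ _ (pow_mem hwV 2) (π.V.mul_mem _ _ (hv _) hwV))
      (π.V.mul_mem _ _ (hv _) (π.V.mul_mem _ _ hu.mem hwV)))
      (π.V.add_mem _ _ (π.V.add_mem _ _ (hv _) (π.V.mul_mem _ _ (hv _) hu.mem)) (π.V.mul_mem _ _ (hv _) (pow_mem hu.mem 2)))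
  have hy0 : P.y ≠ 0 := by
    intro h1
    rw [h1, zero_mul] at hw
    exact hw π.V.zero_mem
  have hwi : Rd π.V π.φ (P.x * P.y⁻¹) 0 := by
    have h1 : Rd π.V π.φ (P.y * P.x⁻¹)⁻¹ 0 := Rd.inv_zero hw
    rwa [mul_inv, inv_inv, mul_comm] at h1
  have hq : Rd π.V π.φ (P.x ^ 3 * P.y⁻¹ ^ 2) 1 := by
    have e : P.x ^ 3 * P.y⁻¹ ^ 2 = 1 + ev W.a1 P.β * (P.x * P.y⁻¹) + ev W.a3 P.β * (P.x⁻¹ * (P.x * P.y⁻¹)) -
        ev W.a2 P.β * (P.x * P.y⁻¹) ^ 2 - ev W.a4 P.β * (P.x⁻¹ * (P.x * P.y⁻¹) ^ 2) -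
        ev W.a6 P.β * (P.x⁻¹ ^ 2 * (P.x * P.y⁻¹) ^ 2) := by
      have h1 := h.2.2
      field_simp
      linear_combination -h1
    rw [e]
    have h3 := ((((Rd.one.add ((rd_ev W.a1 r0).mul hwi)).add ((rd_ev W.a3 r0).mul (hu.mul hwi))).sub
      ((rd_ev W.a2 r0).mul (hwi.pow 2))).sub ((rd_ev W.a4 r0).mul (hu.mul (hwi.pow 2)))).sub
      ((rd_ev W.a6 r0).mul ((hu.pow 2).mul (hwi.pow 2)))
    have e2 : (1 : K) + ev W.a1 β' * 0 + ev W.a3 β' * (0 * 0) - ev W.a2 β' * 0 ^ 2 - ev W.a4 β' * (0 * 0 ^ 2) -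
        ev W.a6 β' * (0 ^ 2 * 0 ^ 2) = 1 := by ring
    rwa [e2] at h3
  obtain ⟨g, hg⟩ := IsAlgClosed.exists_pow_nat_eq (P.x * P.y⁻¹) (n := W.n) hn
  have hg0 : g ≠ 0 := by
    rintro rfl
    rw [zero_pow hn.ne'] at hg
    exact mul_ne_zero hx0 (inv_ne_zero hy0) hg.symm
  have hgr : Rd π.V π.φ g 0 := by
    obtain ⟨g', hg'⟩ := rd_of_mem (mem_of_pow (π := π) (z := g) hn (by rw [hg]; exact hwi.mem))
    have h2 := hg'.pow W.n
    rw [hg] at h2
    have h3 : g' ^ W.n = 0 := h2.unique hwi
    rwa [pow_eq_zero_iff hn.ne' |>.1 h3] at hg'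
  refine ⟨Or.inr (Or.inl one_ne_zero), g, hg0, fun i => ?_, ?_, ?_⟩
  · have h1 := (hgr.pow (W.v i)).mul (r0 i)
    rwa [zero_pow (hW.v i).ne', zero_mul] at h1
  · have e : g ^ (2 * W.n) * P.x = P.x ^ 3 * P.y⁻¹ ^ 2 := by
      rw [mul_comm 2 W.n, pow_mul, hg]
      ring
    show Rd π.V π.φ (g ^ (2 * W.n) * P.x) 1
    rw [e]
    exact hq
  · have e : g ^ (3 * W.n) * P.y = P.x ^ 3 * P.y⁻¹ ^ 2 := by
      rw [mul_comm 3 W.n, pow_mul, hg]
      field_simp
    show Rd π.V π.φ (g ^ (3 * W.n) * P.y) 1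
    rw [e]
    exact hq

/-- the family of the points with the same `x` -/
private theorem neg_familyL (hW : W.Ok) {Q : Pt s K} (hQ : OnL W Q) : ∃ (A : Multiset (Pt s (Om K))) (π1 π0 : Place K (Om K)),
    (∀ q ∈ A, OnL W q) ∧ (∀ q ∈ A, q.β = fun i => algebraMap K (Om K) (Q.β i)) ∧ (∀ σ : Om K ≃ₐ[RatFunc K] Om K, A.map (Pt.map σ) = A) ∧
      Multiset.Rel (Sp W.wt π1) A {Q, ngL W Q} ∧ Multiset.Rel (Sp W.wt π0) A {o s K, o s K} := by
  obtain ⟨π1, π0, r1, n0, r0, -⟩ := two_places K
  set T0 : Fin s → Om K := fun i => algebraMap K (Om K) (Q.β i) with hT0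
  set x := algebraMap K (Om K) Q.x - 1 + (tt K)⁻¹ with hxdef
  have hxV : x ∉ π0.V := by
    intro h
    apply n0
    have e : (tt K)⁻¹ = x - (algebraMap K (Om K) Q.x - 1) := by rw [hxdef]; ring
    rw [e]
    exact sub_mem h (sub_mem (rd_cst π0 Q.x).mem π0.V.one_mem)
  have hx0 : x ≠ 0 := by
    intro h
    exact hxV (by rw [h]; exact π0.V.zero_mem)
  set l := ev W.a1 T0 * x + ev W.a3 T0 with hl
  set z := x ^ 3 + ev W.a2 T0 * x ^ 2 + ev W.a4 T0 * x + ev W.a6 T0 with hz
  set p : (Om K)[X] := C 1 * X ^ 2 + C l * X + C (-z) with hp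
  have hpd : p.natDegree = 2 := natDegree_quadratic one_ne_zero
  have hp0 : p ≠ 0 := by
    intro h
    rw [h, natDegree_zero] at hpd
    omega
  set f : Om K → Pt s (Om K) := fun y => ⟨T0, x, y⟩ with hf
  have hroot : ∀ y ∈ p.roots, y ^ 2 + l * y = z := by
    intro y hy
    rw [mem_roots hp0, IsRoot.def, hp] at hy
    simp only [eval_add, eval_mul, eval_C, eval_pow, eval_X] at hy
    linear_combination hy
  have hI : ∀ g ∈ W.I, ev g T0 = 0 := by
    intro g hg
    rw [hT0, ev_cst, hQ.2.1 g hg, map_zero]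
  have hon : ∀ y ∈ p.roots, OnL W (⟨T0, x, y⟩ : Pt s (Om K)) := fun y hy => by
    refine ⟨Or.inr (Or.inl hx0), hI, ?_⟩
    have h1 := hroot y hy
    rw [hl, hz] at h1
    show y ^ 2 + ev W.a1 T0 * x * y + ev W.a3 T0 * y = x ^ 3 + ev W.a2 T0 * x ^ 2 + ev W.a4 T0 * x + ev W.a6 T0
    linear_combination h1
  refine ⟨p.roots.map f, π1, π0, ?_, ?_, ?_, ?_, ?_⟩
  · intro s hs
    obtain ⟨y, hy, rfl⟩ := Multiset.mem_map.1 hs
    exact hon y hy
  · intro s hs
    obtain ⟨y, hy, rfl⟩ := Multiset.mem_map.1 hs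
    rfl
  · intro σ
    have hσx : σ x = x := by
      rw [hxdef, map_add, map_sub, map_one, map_inv₀, sigma_tt, sigma_cst]
    have hσ0 : (fun i => σ (T0 i)) = T0 := funext fun i => sigma_cst σ _
    have hσl : σ l = l := by
      rw [hl, map_add, map_mul, sigma_ev, sigma_ev, hσx, hσ0]
    have hσz : σ z = z := by
      rw [hz, map_add, map_add, map_add, map_mul, map_mul, map_pow, map_pow, sigma_ev, sigma_ev, sigma_ev, hσx, hσ0]
    have hσp : p.map (σ : Om K →+* Om K) = p := by
      rw [hp]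
      simp only [Polynomial.map_add, Polynomial.map_mul, Polynomial.map_pow, map_X, map_C]
      have e1 : (σ : Om K →+* Om K) 1 = 1 := map_one σ
      have e2 : (σ : Om K →+* Om K) l = l := hσl
      have e3 : (σ : Om K →+* Om K) (-z) = -z := by
        show σ (-z) = -z
        rw [map_neg, hσz]
      rw [e1, e2, e3]
    have h1 : (p.roots.map f).map (Pt.map σ) = (p.roots.map σ).map f := by
      rw [Multiset.map_map, Multiset.map_map]
      refine Multiset.map_congr rfl fun y _ => ?_
      simp only [hf, Function.comp_apply]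
      show ES.Pt.map (⇑σ) (⟨T0, x, y⟩ : Pt s (Om K)) = _
      unfold ES.Pt.map
      simp only [hσx, hσ0]
    rw [h1, roots_sigma, hσp]
  · have hx1 : Rd π1.V π1.φ x Q.x := by
      have h := ((rd_cst π1 Q.x).sub Rd.one).add r1
      have e : Q.x - 1 + 1 = Q.x := by ring
      rwa [e] at h
    have hT1 : ∀ i, Rd π1.V π1.φ (T0 i) (Q.β i) := fun i => rd_cst π1 _
    set l1 := ev W.a1 Q.β * Q.x + ev W.a3 Q.β with hl1
    have hl1' : Rd π1.V π1.φ l l1 := ((rd_ev W.a1 hT1).mul hx1).add (rd_ev W.a3 hT1)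
    set y2 := -Q.y - ev W.a1 Q.β * Q.x - ev W.a3 Q.β with hy2
    have hz1 : Rd π1.V π1.φ z (Q.y ^ 2 + l1 * Q.y) := by
      have e : Q.y ^ 2 + l1 * Q.y = Q.x ^ 3 + ev W.a2 Q.β * Q.x ^ 2 + ev W.a4 Q.β * Q.x + ev W.a6 Q.β := by
        rw [hl1]
        linear_combination hQ.2.2
      rw [e]
      exact (((hx1.pow 3).add ((rd_ev W.a2 hT1).mul (hx1.pow 2))).add ((rd_ev W.a4 hT1).mul hx1)).add (rd_ev W.a6 hT1)
    set p' : K[X] := C 1 * X ^ 2 + C l1 * X + C (-(Q.y ^ 2 + l1 * Q.y)) with hp'
    have hpd' : p'.natDegree = 2 := natDegree_quadratic one_ne_zero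
    have hp'0 : p' ≠ 0 := by
      intro h
      rw [h, natDegree_zero] at hpd'
      omega
    have hp'r : p'.roots = {Q.y, y2} := by
      have e : p' = (X - C Q.y) * (X - C y2) := by
        rw [hp', hy2, hl1]
        simp only [map_neg, map_sub, map_add, map_mul, map_pow, map_one]
        ring
      rw [e, roots_mul (mul_ne_zero (X_sub_C_ne_zero _) (X_sub_C_ne_zero _)), roots_X_sub_C,
        roots_X_sub_C]
      rfl
    have hrel : Multiset.Rel (Rd π1.V π1.φ) p.roots p'.roots := by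
      refine roots_rd hp'0 ?_ ?_
      · intro i
        rw [hp, hp']
        simp only [coeff_add, coeff_C_mul, coeff_X_pow, coeff_X, coeff_C]
        refine Rd.add (Rd.add ?_ ?_) ?_
        · refine Rd.one.mul ?_
          split_ifs
          · exact Rd.one
          · exact Rd.zero
        · refine hl1'.mul ?_
          split_ifs
          · exact Rd.one
          · exact Rd.zero
        · split_ifs
          · exact hz1.neg
          · exact Rd.zero
      · rw [hpd, hpd']
    rw [hp'r] at hrel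
    have e3 : ({Q, ngL W Q} : Multiset (Pt s K)) =
        ({Q.y, y2} : Multiset K).map (fun y => (⟨Q.β, Q.x, y⟩ : Pt s K)) := by
      simp only [Multiset.insert_eq_cons, Multiset.map_cons, Multiset.map_singleton]
      rfl
    rw [e3, Multiset.rel_map]
    refine hrel.mono fun y _ y' hy' hyy => ?_
    refine Sp_fin ?_ hT1 hx1 hyy
    have hy2' : y' = Q.y ∨ y' = y2 := by simpa using hy'
    by_contra hc
    unfold Pt.NZ at hc
    push Not at hc
    obtain ⟨c1, c2, c3⟩ := hc
    have c1' : Q.β = 0 := c1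
    have c2' : Q.x = 0 := c2
    have c3' : y' = 0 := c3
    have e1 : ev W.a1 (0 : Fin s → K) = 0 := ev_zero hW.a1 hW.n
    have e3 : ev W.a3 (0 : Fin s → K) = 0 := ev_zero hW.a3 (by have := hW.n; omega)
    have c4 : Q.y = 0 := by
      rcases hy2' with h | h
      · rw [← h]; exact c3'
      · rw [c3', hy2, c1', c2', e1, e3] at h
        linear_combination h
    rcases hQ.1 with h | h | h
    · exact h c1'
    · exact h c2'
    · exact h c4
  · have hcard : Multiset.card p.roots = 2 := by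
      rw [IsAlgClosed.card_roots_eq_natDegree, hpd]
    obtain ⟨y1, y2, hy⟩ := Multiset.card_eq_two.1 hcard
    rw [hy]
    simp only [Multiset.insert_eq_cons, Multiset.map_cons, Multiset.map_singleton]
    have h1 : y1 ∈ p.roots := by rw [hy]; simp
    have h2 : y2 ∈ p.roots := by rw [hy]; simp
    refine Multiset.Rel.cons ?_ (Multiset.Rel.cons ?_ Multiset.Rel.zero)
    · exact Sp_infL hW (hon y1 h1) (fun _ => (rd_cst π0 _).mem) hxV
    · exact Sp_infL hW (hon y2 h2) (fun _ => (rd_cst π0 _).mem) hxV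

omit [IsAlgClosed K] in
private theorem map_setPL (σ : Om K ≃ₐ[RatFunc K] Om K) (R : Fin k → Row s c K) (i : Fin k) (j : Fin c) (Q : Pt s (Om K)) :
    (fun l => (setP (fun l => (R l).map (algebraMap K (Om K))) i j Q l).map σ) =
      setP (fun l => (R l).map (algebraMap K (Om K))) i j (Q.map σ) := by
  funext l
  unfold setP
  by_cases hl : l = i
  · subst hl
    rw [Function.update_self, Function.update_self]
    refine Row.ext ?_ ?_
    · exact funext fun i => sigma_cst σ _
    · funext j'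
      show (Function.update ((R l).map (algebraMap K (Om K))).P j Q j').map σ =
        Function.update ((R l).map (algebraMap K (Om K))).P j (Q.map σ) j'
      by_cases hj : j' = j
      · subst hj
        rw [Function.update_self, Function.update_self]
      · rw [Function.update_of_ne hj, Function.update_of_ne hj]
        exact map_cst σ ((R l).P j')
  · rw [Function.update_of_ne hl, Function.update_of_ne hl]
    exact map_cstR σ (R l)

/-- the class of a tuple of rows modulo rational equivalence -/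
noncomputable def cqL (X : LD K s c) (R : Fin k → Row s c K) : CycX k s c K ⧸ RatLX k X := QuotientAddGroup.mk (ptX R)

variable {X : LD K s c}

omit [IsAlgClosed K] in
theorem mk_cycLq (S : Multiset (Fin k → Row s c K)) :
    (QuotientAddGroup.mk (cycX S) : CycX k s c K ⧸ RatLX k X) = (S.map (cqL X)).sum := by
  have h := map_multiset_sum (QuotientAddGroup.mk' (RatLX k X)) (S.map ptX)
  rw [Multiset.map_map] at h
  exact h

omit [IsAlgClosed K] in
/-- relations in one point modulo `RatLX` -/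
theorem slotqL (hX : X.Ok) {R : Fin k → Row s c K} (hR : ∀ l, OnLX X (R l)) (i : Fin k) (j : Fin c) {A : Multiset (Pt s (Om K))}
    {B B' : Multiset (Pt s K)} {π π' : Place K (Om K)} (hA : ∀ Q ∈ A, OnL (X.L j) Q)
    (hov : ∀ Q ∈ A, Over X.v (fun l => algebraMap K (Om K) ((R i).β l)) Q.β)
    (hG : ∀ σ : Om K ≃ₐ[RatFunc K] Om K, A.map (Pt.map σ) = A) (h : Multiset.Rel (Sp (X.L j).wt π) A B)
    (h' : Multiset.Rel (Sp (X.L j).wt π') A B') :
    (B.map (fun q => cqL X (setP R i j q))).sum = (B'.map (fun q => cqL X (setP R i j q))).sum := by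
  have hc : ∀ (π : Place K (Om K)) (l : Fin k), SpR X.wt π ((R l).map (algebraMap K (Om K))) (R l) :=
    fun π l => SpR_cstM (M := X.mdl) (M_ok hX) π (hR l)
  have hsp : ∀ (π : Place K (Om K)) (Q : Pt s (Om K)) (q : Pt s K), Sp (X.L j).wt π Q q →
      SpX X.wt π (setP (fun l => (R l).map (algebraMap K (Om K))) i j Q) (setP R i j q) := by
    intro π Q q hq l
    unfold setP
    by_cases hl : l = i
    · subst hl
      rw [Function.update_self, Function.update_self]
      refine ⟨(hc π l).β, fun j' => ?_⟩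
      show Sp (X.wt.W j') π (Function.update ((R l).map (algebraMap K (Om K))).P j Q j') (Function.update (R l).P j q j')
      by_cases hj : j' = j
      · subst hj
        rw [Function.update_self, Function.update_self]
        exact hq
      · rw [Function.update_of_ne hj, Function.update_of_ne hj]
        exact (hc π l).P j'
    · rw [Function.update_of_ne hl, Function.update_of_ne hl]
      exact hc π l
  have e1 : (B.map (fun q => cqL X (setP R i j q))).sum =
      (QuotientAddGroup.mk (cycX (B.map (fun q => setP R i j q))) : CycX k s c K ⧸ RatLX k X) := by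
    rw [mk_cycLq, Multiset.map_map]
    rfl
  have e2 : (B'.map (fun q => cqL X (setP R i j q))).sum =
      (QuotientAddGroup.mk (cycX (B'.map (fun q => setP R i j q))) : CycX k s c K ⧸ RatLX k X) := by
    rw [mk_cycLq, Multiset.map_map]
    rfl
  rw [e1, e2, QuotientAddGroup.eq]
  refine AddSubgroup.subset_closure ⟨A.map (fun Q => setP (fun l => (R l).map (algebraMap K (Om K))) i j Q), π', π,
    B'.map (fun q => setP R i j q), B.map (fun q => setP R i j q), ?_, ?_, ?_, ?_, ?_⟩
  · intro T hT l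
    obtain ⟨Q, hQ, rfl⟩ := Multiset.mem_map.1 hT
    unfold setP
    by_cases hl : l = i
    · subst hl
      rw [Function.update_self]
      have h1 := OnLX_cst (hR l)
      refine ⟨h1.ne, h1.I, fun j' => ?_, fun j' => ?_⟩
      · show OnL (X.L j') (Function.update ((R l).map (algebraMap K (Om K))).P j Q j')
        by_cases hj : j' = j
        · subst hj
          rw [Function.update_self]
          exact hA Q hQ
        · rw [Function.update_of_ne hj]
          exact h1.on j'
      · show Over X.v ((R l).map (algebraMap K (Om K))).β (Function.update ((R l).map (algebraMap K (Om K))).P j Q j').β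
        by_cases hj : j' = j
        · subst hj
          rw [Function.update_self]
          exact hov Q hQ
        · rw [Function.update_of_ne hj]
          exact h1.ov j'
    · rw [Function.update_of_ne hl]
      exact OnLX_cst (hR l)
  · intro σ
    rw [Multiset.map_map]
    have e : ((fun (P : Fin k → Row s c (Om K)) l => (P l).map σ) ∘ fun Q => setP (fun l => (R l).map (algebraMap K (Om K))) i j Q) =
        (fun Q => setP (fun l => (R l).map (algebraMap K (Om K))) i j Q) ∘ Pt.map σ := by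
      funext Q
      exact map_setPL σ R i j Q
    rw [e, ← Multiset.map_map, hG σ]
  · rw [Multiset.rel_map]
    exact h'.mono fun Q _ q _ hq => hsp π' Q q hq
  · rw [Multiset.rel_map]
    exact h.mono fun Q _ q _ hq => hsp π Q q hq
  · rw [neg_add_eq_sub]

/-- `P` and `-P` -/
theorem negqL (hX : X.Ok) {R : Fin k → Row s c K} (hR : ∀ l, OnLX X (R l)) (i : Fin k) (j : Fin c) {Q : Pt s K}
    (hQ : OnL (X.L j) Q) (hov : Over X.v (R i).β Q.β) :
    cqL X (setP R i j Q) + cqL X (setP R i j (ngL (X.L j) Q)) = 2 • cqL X (setP R i j (o s K)) := by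
  obtain ⟨A, π1, π0, h1, h0, h2, h3, h4⟩ := neg_familyL (hX.L j) hQ
  have hov' : ∀ q ∈ A, Over X.v (fun l => algebraMap K (Om K) ((R i).β l)) q.β := by
    intro q hq
    rw [h0 q hq]
    rcases hov with h | ⟨d, hd, h⟩
    · left
      funext l
      rw [h, Pi.zero_apply, map_zero]
      rfl
    · right
      refine ⟨algebraMap K (Om K) d, (map_ne_zero_iff _ (algebraMap K (Om K)).injective).2 hd, ?_⟩
      funext l
      rw [h, map_mul, map_pow]
  have h := slotqL hX hR i j h1 hov' h2 h3 h4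
  simp only [Multiset.insert_eq_cons, Multiset.map_cons, Multiset.map_singleton, Multiset.sum_cons,
    Multiset.sum_singleton] at h
  rw [h, two_nsmul]

end LW
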