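import Pool.Agent.H8.LW.Mdl
import Pool.Agent.H8.SC.Schoen

/-! # LW.P1 : long form over `ℙ¹`, one surface or two rational surfaces: all zero-cycles of degree zero (complete, any algebraically
closed field) -/

namespace LW

open ES H68.BB FX SCX
open H67.KH (sigma_cst sigma_tt rd_cst)

variable {K : Type} [Field K] {s c k : ℕ}

/-- the `j`-th surface as a fibre product with one factor -/
def colL (X : LD K s c) (j : Fin c) : LD K s 1 :=
  ⟨X.v, X.I, fun _ => X.n j, fun _ => X.a1 j, fun _ => X.a2 j, fun _ => X.a3 j, fun _ => X.a4 j, fun _ => X.a6 j⟩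

theorem colm_onL {X : LD K s c} (hX : X.Ok) (j : Fin c) {F : Type} [Field F] [Algebra K F] {R : Row s 1 F}
    (h : OnLX (colL X j) R) : OnLX X (colm (gC j) R) := by
  refine ⟨h.ne, h.I, fun j' => ?_, fun j' => ?_⟩
  · show OnL (X.L j') ((gC j j').elim (o s F) R.P)
    unfold gC
    split_ifs with hj
    · subst hj
      exact h.on 0
    · exact OnL_o (hX.L j') F
  · show Over X.v R.β ((gC j j').elim (o s F) R.P).β
    unfold gC
    split_ifs with hj
    · exact h.ov 0
    · exact Or.inl rfl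

theorem gC_cmptL (X : LD K s c) (j : Fin c) : Cmpt X.mdl.wt (colL X j).mdl.wt (gC j) := by
  refine ⟨rfl, rfl, fun j' i h => ?_⟩
  unfold gC at h
  split_ifs at h with hj
  subst hj
  rfl

/-- the `j`-th surface in `X` -/
theorem col_nulL {X : LD K s c} (hX : X.Ok) (j : Fin c)
    (hA : ∀ R : Fin 1 → Row s 1 K, (∀ i, OnLX (colL X j) (R i)) → ∃ N : ℕ, 0 < N ∧ N • altX R ∈ RatLX 1 (colL X j))
    {R : Row s c K} (hR : OnLX X R) (ho : ∀ j', j' ≠ j → R.P j' = o s K) :
    Finsupp.single R (1 : ℤ) - Finsupp.single (sec c R.β) (1 : ℤ) ∈ nulM X.mdl := by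
  classical
  set r : Row s 1 K := ⟨R.β, fun _ => R.P j⟩ with hr
  have hrX : OnLX (colL X j) r := ⟨hR.ne, hR.I, fun _ => hR.on j, fun _ => hR.ov j⟩
  have e1 : altX (fun _ : Fin 1 => r) = boxX (fun _ : Fin 1 => brk r) := by
    unfold altX
    rw [Finset.univ_unique, Finset.sum_singleton, pow_one]
    have h1 : Equiv.Perm.sign (default : Equiv.Perm (Fin 1)) = 1 := by
      rw [Subsingleton.elim (default : Equiv.Perm (Fin 1)) 1, map_one]
    rw [h1, Units.val_one, one_smul, prodX_eq]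
  have e2 : brk r = Finsupp.single r (1 : ℤ) - Finsupp.single (sec 1 R.β) (1 : ℤ) := by
    unfold brk
    have hu : (Finset.univ : Finset (Finset (Fin 1))) = {∅, {0}} := by decide
    rw [hu, Finset.sum_insert (by decide), Finset.sum_singleton, Finset.card_empty, pow_zero, one_smul, Finset.card_singleton,
      pow_one, neg_one_zsmul, ← sub_eq_add_neg, rJ_empty]
    congr 2
    unfold rJ sec
    refine Row.ext rfl ?_
    funext j'
    show (if j' ∈ ({0} : Finset (Fin 1)) then o s K else r.P j') = o s K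
    rw [if_pos (by rw [Subsingleton.elim j' 0]; exact Finset.mem_singleton_self _)]
  obtain ⟨N, hN, h1⟩ := hA (fun _ => r) (fun _ => hrX)
  rw [e1] at h1
  have h2 := RatM_colm (M := X.mdl) (M' := (colL X j).mdl) (fun _ h => colm_onL hX j h) (gC_cmptL X j) h1
  rw [mem_nulM]
  refine ⟨N, hN, ?_⟩
  have e3 : (N • boxX (fun _ : Fin 1 => brk r)).mapDomain (fun (R : Fin 1 → Row s 1 K) i => colm (c := c) (gC j) (R i)) =
      N • boxX (fun _ : Fin 1 => (Finsupp.single R (1 : ℤ) - Finsupp.single (sec c R.β) (1 : ℤ) : Row s c K →₀ ℤ)) := by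
    have h3 : ∀ x : CycX 1 s 1 K, (N • x).mapDomain (fun (R : Fin 1 → Row s 1 K) i => colm (c := c) (gC j) (R i)) =
        N • x.mapDomain (fun (R : Fin 1 → Row s 1 K) i => colm (c := c) (gC j) (R i)) := fun x =>
      map_nsmul (Finsupp.mapDomain.addMonoidHom (fun (R : Fin 1 → Row s 1 K) i => colm (c := c) (gC j) (R i)) :
        CycX 1 s 1 K →+ CycX 1 s c K) N x
    rw [h3, boxX_one, boxX_one, ← Finsupp.mapDomain_comp]
    congr 1
    have h4 : (fun (R : Fin 1 → Row s 1 K) (i : Fin 1) => colm (c := c) (gC j) (R i)) ∘ (fun r (_ : Fin 1) => r) =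
        (fun r (_ : Fin 1) => r) ∘ colm (gC j) := rfl
    rw [h4, Finsupp.mapDomain_comp]
    congr 1
    have h5 := map_sub (Finsupp.mapDomain.addMonoidHom (colm (gC j)) : (Row s 1 K →₀ ℤ) →+ (Row s c K →₀ ℤ))
      (Finsupp.single r (1 : ℤ)) (Finsupp.single (sec 1 R.β) (1 : ℤ))
    rw [e2]
    refine h5.trans ?_
    show (Finsupp.single r (1 : ℤ)).mapDomain _ - (Finsupp.single (sec 1 R.β) (1 : ℤ)).mapDomain _ = _
    rw [Finsupp.mapDomain_single, Finsupp.mapDomain_single]
    congr 2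
    · unfold colm
      refine Row.ext rfl ?_
      funext j'
      show (gC j j').elim (o s K) r.P = R.P j'
      unfold gC
      split_ifs with hj
      · subst hj
        rfl
      · exact (ho j' hj).symm
    · unfold colm sec
      refine Row.ext rfl ?_
      funext j'
      show (gC j j').elim (o s K) (fun _ => o s K) = o s K
      unfold gC
      split_ifs <;> rfl
  rwa [e3] at h2

variable [IsAlgClosed K] {n : Fin c → ℕ} {a1 a2 a3 a4 a6 : Fin c → MvPolynomial (Fin 2) K}

/-- the zero section over `ℙ¹` -/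
theorem sec_nulL (hX : (LP n a1 a2 a3 a4 a6).Ok) {β β' : Fin 2 → K} (h : β ≠ 0) (h' : β' ≠ 0) :
    Finsupp.single (sec c β) (1 : ℤ) - Finsupp.single (sec c β') (1 : ℤ) ∈ nulM (LP n a1 a2 a3 a4 a6).mdl := by
  classical
  obtain ⟨π1, π0, -, -, r0, r1⟩ := two_places K
  set T : Fin 2 → Om K := fun i => (1 - tt K) * algebraMap K (Om K) (β i) + tt K * algebraMap K (Om K) (β' i) with hT
  set R : Row 2 c (Om K) := ⟨T, fun _ => o 2 (Om K)⟩ with hR
  have s0 : SpV (LP n a1 a2 a3 a4 a6).mdl.wt.v π0 T β := by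
    refine ⟨h, 1, one_ne_zero, fun i => ?_⟩
    rw [one_pow, one_mul, hT]
    have h1 := ((Rd.one.sub r0).mul (rd_cst π0 (β i))).add (r0.mul (rd_cst π0 (β' i)))
    rwa [sub_zero, one_mul, zero_mul, add_zero] at h1
  have s1 : SpV (LP n a1 a2 a3 a4 a6).mdl.wt.v π1 T β' := by
    refine ⟨h', 1, one_ne_zero, fun i => ?_⟩
    rw [one_pow, one_mul, hT]
    have h1 := ((Rd.one.sub r1).mul (rd_cst π1 (β i))).add (r1.mul (rd_cst π1 (β' i)))
    rwa [sub_self, one_mul, zero_mul, zero_add] at h1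
  have hne : T ≠ 0 := by
    intro h0
    obtain ⟨hb, d, hd, hd2⟩ := s0
    apply hb
    funext i
    have h1 := hd2 i
    rw [h0, Pi.zero_apply, mul_zero] at h1
    exact h1.unique Rd.zero
  have hon : OnLX (LP n a1 a2 a3 a4 a6) R := by
    refine ⟨hne, fun f hf => absurd hf (Set.notMem_empty f), fun j => OnL_o (hX.L j) _, fun j => Or.inl rfl⟩
  rw [mem_nulM]
  refine le_tor _ ?_
  rw [boxX_one]
  have h5 := map_sub (Finsupp.mapDomain.addMonoidHom (fun (r : Row 2 c K) (_ : Fin 1) => r) : (Row 2 c K →₀ ℤ) →+ CycX 1 2 c K)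
    (Finsupp.single (sec c β) (1 : ℤ)) (Finsupp.single (sec c β') (1 : ℤ))
  have h6 : (Finsupp.single (sec c β) (1 : ℤ) - Finsupp.single (sec c β') (1 : ℤ)).mapDomain (fun (r : Row 2 c K) (_ : Fin 1) => r) =
      cycX {fun _ : Fin 1 => sec c β} - cycX {fun _ : Fin 1 => sec c β'} := by
    refine h5.trans ?_
    show (Finsupp.single (sec c β) (1 : ℤ)).mapDomain _ - (Finsupp.single (sec c β') (1 : ℤ)).mapDomain _ = _
    rw [Finsupp.mapDomain_single, Finsupp.mapDomain_single]
    unfold cycX ptX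
    rw [Multiset.map_singleton, Multiset.map_singleton, Multiset.sum_singleton, Multiset.sum_singleton]
  rw [h6]
  refine AddSubgroup.subset_closure ⟨{fun _ : Fin 1 => R}, π0, π1, _, _, ?_, ?_, ?_, ?_, rfl⟩
  · intro Q hQ i
    rw [Multiset.mem_singleton.1 hQ]
    exact hon
  · intro σ
    rw [Multiset.map_singleton]
    congr 1
    funext _
    refine Row.ext ?_ ?_
    · funext i
      show σ ((1 - tt K) * algebraMap K (Om K) (β i) + tt K * algebraMap K (Om K) (β' i)) = _
      rw [map_add, map_mul, map_mul, map_sub, map_one, sigma_tt, sigma_cst, sigma_cst]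
    · funext j
      show (o 2 (Om K)).map σ = o 2 (Om K)
      unfold ES.Pt.map o
      ext
      · exact map_zero σ
      · exact map_one σ
      · exact map_one σ
  · refine Multiset.Rel.cons ?_ Multiset.Rel.zero
    exact fun i => ⟨s0, fun j => Sp_oo _ _⟩
  · refine Multiset.Rel.cons ?_ Multiset.Rel.zero
    exact fun i => ⟨s1, fun j => Sp_oo _ _⟩

/-- all zero-cycles of degree zero satisfy the condition of `altzL_mem` -/
theorem rho_nulL (hX : (LP n a1 a2 a3 a4 a6).Ok) {j : Fin c}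
    (hj : ∀ R : Row 2 c K, OnLX (LP n a1 a2 a3 a4 a6) R →
      Finsupp.single (rho j R) (1 : ℤ) - Finsupp.single (sec c R.β) (1 : ℤ) ∈ nulM (LP n a1 a2 a3 a4 a6).mdl)
    {z : Row 2 c K →₀ ℤ} (hz : ∀ R ∈ z.support, OnLX (LP n a1 a2 a3 a4 a6) R) (h0 : (z.sum fun _ m => m) = 0) :
    z.mapDomain (rho j) ∈ nulM (LP n a1 a2 a3 a4 a6).mdl := by
  classical
  set β0 : Fin 2 → K := fun _ => 1 with hβ0
  have hβ : β0 ≠ 0 := fun h => one_ne_zero (congrFun h 0)
  have h1 : z.mapDomain (rho j) = ∑ R ∈ z.support, z R • ((Finsupp.single (rho j R) (1 : ℤ) - Finsupp.single (sec c R.β) (1 : ℤ)) +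
      (Finsupp.single (sec c R.β) (1 : ℤ) - Finsupp.single (sec c β0) (1 : ℤ))) := by
    unfold Finsupp.mapDomain
    unfold Finsupp.sum at h0 ⊢
    have h2 : ∑ R ∈ z.support, z R • (Finsupp.single (sec c β0) (1 : ℤ) : Row 2 c K →₀ ℤ) = 0 := by
      rw [← Finset.sum_smul, h0, zero_smul]
    rw [← sub_zero (∑ R ∈ z.support, Finsupp.single (rho j R) (z R)), ← h2, ← Finset.sum_sub_distrib]
    refine Finset.sum_congr rfl fun R _ => ?_
    rw [sub_add_sub_cancel, smul_sub]
    congr 1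
    rw [Finsupp.smul_single, smul_eq_mul, mul_one]
  rw [h1]
  exact AddSubgroup.sum_mem _ fun R hR => AddSubgroup.zsmul_mem _
    (AddSubgroup.add_mem _ (hj R (hz R hR)) (sec_nulL hX (hz R hR).ne hβ)) _

/-- over `ℙ¹`: one surface, or two surfaces with `n = 1` -/
theorem altzL_P1 (hX : (LP n a1 a2 a3 a4 a6).Ok) (hc : c = 1 ∨ (c = 2 ∧ ∀ j, n j = 1))
    (h1 : ∀ j : Fin c, n j = 1 → ∀ R : Fin 1 → Row 2 1 K, (∀ i, OnLX (colL (LP n a1 a2 a3 a4 a6) j) (R i)) →
      ∃ N : ℕ, 0 < N ∧ N • altX R ∈ RatLX 1 (colL (LP n a1 a2 a3 a4 a6) j))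
    (hA : ∀ R : Fin k → Row 2 c K, (∀ i, OnLX (LP n a1 a2 a3 a4 a6) (R i)) →
      ∃ N : ℕ, 0 < N ∧ N • altX R ∈ RatLX k (LP n a1 a2 a3 a4 a6))
    {z : Fin k → (Row 2 c K →₀ ℤ)} (hz : ∀ i, ∀ R ∈ (z i).support, OnLX (LP n a1 a2 a3 a4 a6) R)
    (h0 : ∀ i, ((z i).sum fun _ m => m) = 0) :
    ∃ N : ℕ, 0 < N ∧ N • altzX z ∈ RatLX k (LP n a1 a2 a3 a4 a6) := by
  refine altzL_mem hX hA hz fun i j => ?_
  have key : (z i).mapDomain (rho j) ∈ nulM (LP n a1 a2 a3 a4 a6).mdl → ∃ N : ℕ, 0 < N ∧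
      N • boxX (fun _ : Fin 1 => (z i).mapDomain (rho j)) ∈ RatLX 1 (LP n a1 a2 a3 a4 a6) := fun h => by
    rw [mem_nulM] at h
    exact mem_tor.1 h
  refine key (rho_nulL hX (fun R hR => ?_) (hz i) (h0 i))
  rcases hc with hc | ⟨hc, hn⟩
  · subst hc
    have e : rho j R = sec 1 R.β := by
      unfold rho sec
      refine Row.ext rfl ?_
      funext j'
      show Function.update R.P j (o 2 K) j' = o 2 K
      rw [Subsingleton.elim j' j, Function.update_self]
    rw [e, sub_self]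
    exact AddSubgroup.zero_mem _
  · subst hc
    obtain ⟨j', hj'⟩ : ∃ j' : Fin 2, ∀ l, l ≠ j' → l = j := by
      clear key
      refine ⟨1 - j, fun l hl => ?_⟩
      revert hl
      revert l j
      decide
    have hR' : OnLX (LP n a1 a2 a3 a4 a6) (rho j R) := by
      refine ⟨hR.ne, hR.I, fun l => ?_, fun l => ?_⟩
      · show OnL _ (Function.update R.P j (o 2 K) l)
        by_cases hl : l = j
        · subst hl
          rw [Function.update_self]
          exact OnL_o (hX.L l) K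
        · rw [Function.update_of_ne hl]
          exact hR.on l
      · show Over _ _ (Function.update R.P j (o 2 K) l).β
        by_cases hl : l = j
        · subst hl
          rw [Function.update_self]
          exact Or.inl rfl
        · rw [Function.update_of_ne hl]
          exact hR.ov l
    refine col_nulL hX j' (h1 j' (hn j')) hR' fun l hl => ?_
    show Function.update R.P j (o 2 K) l = o 2 K
    rw [hj' l hl, Function.update_self]

end LW
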