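import Pool.Agent.H8.LW.NegL
import Pool.Agent.H8.LW.P1
import Pool.Agent.H8.SC.Orb

/-! # LW.OrbL : sums over the group `G = {(ε, σ) ∈ {± 1}^(k × c) ⋊ S_k : ∏ ε = sgn(σ)^c}`, long form (complete, any algebraically
closed field) -/

namespace LW

open ES H68.BB FX SCX

variable {K : Type} [Field K] {s c k : ℕ}

/-- `P`, `-P` or `o` -/
noncomputable def pkL (W : Lm K s) (P : Pt s K) : Option ℤˣ → Pt s K
  | some e => sgL W e P
  | none => o s K

/-- the tuple of rows with signs or `o` -/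
noncomputable def pkLX (X : LD K s c) (R : Fin k → Row s c K) (x : Fin k × Fin c → Option ℤˣ) : Fin k → Row s c K :=
  fun i => ⟨(R i).β, fun j => pkL (X.L j) ((R i).P j) (x (i, j))⟩

private theorem sgL_one (W : Lm K s) (Q : Pt s K) : sgL W 1 Q = Q := by
  unfold sgL
  rw [if_pos rfl]

private theorem sgL_neg (W : Lm K s) (Q : Pt s K) : sgL W (-1) Q = ngL W Q := by
  unfold sgL
  rw [if_neg (by decide)]

private theorem sgL_cases (W : Lm K s) (Q : Pt s K) (e : ℤˣ) : sgL W e Q = Q ∨ sgL W e Q = ngL W Q := by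
  rcases Int.units_eq_one_or e with h | h
  · left; rw [h, sgL_one]
  · right; rw [h, sgL_neg]

/-- the inverse is a point of the surface -/
theorem OnL_ngL {W : Lm K s} (hW : W.Ok) {P : Pt s K} (h : OnL W P) : OnL W (ngL W P) := by
  refine ⟨?_, h.2.1, ?_⟩
  · by_contra hc
    unfold Pt.NZ at hc
    push Not at hc
    obtain ⟨c1, c2, c3⟩ := hc
    have c1' : P.β = 0 := c1
    have c2' : P.x = 0 := c2
    have c3' : -P.y - ev W.a1 P.β * P.x - ev W.a3 P.β = 0 := c3
    have e1 : ev W.a1 (0 : Fin s → K) = 0 := ev_zero hW.a1 hW.n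
    have e3 : ev W.a3 (0 : Fin s → K) = 0 := ev_zero hW.a3 (by have := hW.n; omega)
    have c4 : P.y = 0 := by
      rw [c1', c2', e1, e3] at c3'
      linear_combination -c3'
    rcases h.1 with h | h | h
    · exact h c1'
    · exact h c2'
    · exact h c4
  · show (-P.y - ev W.a1 P.β * P.x - ev W.a3 P.β) ^ 2 + ev W.a1 P.β * P.x * (-P.y - ev W.a1 P.β * P.x - ev W.a3 P.β) +
        ev W.a3 P.β * (-P.y - ev W.a1 P.β * P.x - ev W.a3 P.β) =
      P.x ^ 3 + ev W.a2 P.β * P.x ^ 2 + ev W.a4 P.β * P.x + ev W.a6 P.β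
    linear_combination h.2.2

variable {X : LD K s c}

theorem pkL_onL {W : Lm K s} (hW : W.Ok) {P : Pt s K} (hP : OnL W P) (a : Option ℤˣ) : OnL W (pkL W P a) := by
  cases a with
  | none => exact OnL_o hW K
  | some e =>
    rcases sgL_cases W P e with h | h
    · show OnL W (sgL W e P)
      rw [h]; exact hP
    · show OnL W (sgL W e P)
      rw [h]; exact OnL_ngL hW hP

theorem pkL_over {W : Lm K s} {v : Fin s → ℕ} {β : Fin s → K} {P : Pt s K} (h : Over v β P.β) (a : Option ℤˣ) :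
    Over v β (pkL W P a).β := by
  cases a with
  | none => exact Or.inl rfl
  | some e =>
    rcases sgL_cases W P e with h1 | h1
    · show Over v β (sgL W e P).β
      rw [h1]; exact h
    · show Over v β (sgL W e P).β
      rw [h1]; exact h

theorem pkLX_onLX (hX : X.Ok) {R : Fin k → Row s c K} (hR : ∀ i, OnLX X (R i)) (x : Fin k × Fin c → Option ℤˣ) (i : Fin k) :
    OnLX X (pkLX X R x i) :=
  ⟨(hR i).ne, (hR i).I, fun j => pkL_onL (hX.L j) ((hR i).on j) _, fun j => pkL_over ((hR i).ov j) _⟩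

private theorem sum_optL {G : Type} [AddCommGroup G] (F : Option ℤˣ → G) : ∑ a, F a = F none + (F (some 1) + F (some (-1))) := by
  rw [Fintype.sum_option]
  congr 1
  rw [UnitsInt.univ]
  rw [Finset.sum_insert (by decide), Finset.sum_singleton]

private theorem pkLX_update (R : Fin k → Row s c K) (x : Fin k × Fin c → Option ℤˣ) (q : Fin k × Fin c) (a : Option ℤˣ) :
    pkLX X R (Function.update x q a) = setP (pkLX X R x) q.1 q.2 (pkL (X.L q.2) ((R q.1).P q.2) a) := by
  funext i
  unfold setP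
  by_cases hi : i = q.1
  · subst hi
    rw [Function.update_self]
    refine Row.ext rfl ?_
    funext j
    show pkL (X.L j) ((R q.1).P j) (Function.update x q a (q.1, j)) =
      Function.update (pkLX X R x q.1).P q.2 (pkL (X.L q.2) ((R q.1).P q.2) a) j
    by_cases hj : j = q.2
    · subst hj
      rw [Function.update_self, Function.update_self]
    · rw [Function.update_of_ne hj, Function.update_of_ne (fun h => hj (congrArg Prod.snd h))]
      rfl
  · rw [Function.update_of_ne hi]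
    refine Row.ext rfl ?_
    funext j
    show pkL (X.L j) ((R i).P j) (Function.update x q a (i, j)) = pkL (X.L j) ((R i).P j) (x (i, j))
    rw [Function.update_of_ne (fun h => hi (congrArg Prod.fst h))]

variable [IsAlgClosed K]

/-- the sums with weights `g` and `g'` are rationally equivalent if `(g - g')(± 1) = d`, `(g - g')(0) = - 2 d` -/
theorem weightL (hX : X.Ok) {R : Fin k → Row s c K} (hR : ∀ i, OnLX X (R i)) (g g' : Option ℤˣ → ℤ) (d : ℤ)
    (h1 : g (some 1) = g' (some 1) + d) (h2 : g (some (-1)) = g' (some (-1)) + d) (h3 : g none = g' none - 2 * d) :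
    ∑ x : Fin k × Fin c → Option ℤˣ, (∏ q, g (x q)) • cqL X (pkLX X R x) =
      ∑ x : Fin k × Fin c → Option ℤˣ, (∏ q, g' (x q)) • cqL X (pkLX X R x) := by
  classical
  refine weight_eqI g g' (fun x => cqL X (pkLX X R x)) fun x q => ?_
  simp only [pkLX_update]
  have hn := negqL hX (pkLX_onLX hX hR x) q.1 q.2 ((hR q.1).on q.2) ((hR q.1).ov q.2)
  rw [sum_optL, sum_optL, h1, h2, h3]
  have p1 : pkL (X.L q.2) ((R q.1).P q.2) (some 1) = (R q.1).P q.2 := sgL_one _ _
  have p2 : pkL (X.L q.2) ((R q.1).P q.2) (some (-1)) = ngL (X.L q.2) ((R q.1).P q.2) := sgL_neg _ _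
  have p3 : pkL (X.L q.2) ((R q.1).P q.2) none = o s K := rfl
  rw [p1, p2, p3]
  set A := cqL X (setP (pkLX X R x) q.1 q.2 ((R q.1).P q.2)) with hA
  set B := cqL X (setP (pkLX X R x) q.1 q.2 (ngL (X.L q.2) ((R q.1).P q.2))) with hB
  set C := cqL X (setP (pkLX X R x) q.1 q.2 (o s K)) with hC
  have e2 : (g' none - 2 * d) • C + ((g' (some 1) + d) • A + (g' (some (-1)) + d) • B) =
      (g' none • C + (g' (some 1) • A + g' (some (-1)) • B)) + d • ((A + B) - 2 • C) := by
    module
  rw [e2, hn, sub_self, smul_zero, add_zero]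

omit [IsAlgClosed K] in
/-- only signs -/
private theorem sum_signsL {G : Type} [AddCommGroup G] (g : Option ℤˣ → ℤ) (hg : g none = 0) (F : (Fin k × Fin c → Option ℤˣ) → G) :
    ∑ x : Fin k × Fin c → Option ℤˣ, (∏ q, g (x q)) • F x =
      ∑ ε : Fin k → Fin c → ℤˣ, (∏ i, ∏ j, g (some (ε i j))) • F (fun q => some (ε q.1 q.2)) := by
  classical
  symm
  refine Fintype.sum_of_injective (fun (ε : Fin k → Fin c → ℤˣ) q => some (ε q.1 q.2)) ?_ _ _ ?_ ?_
  · intro ε ε' h
    funext i j
    exact Option.some.inj (congrFun h (i, j))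
  · intro x hx
    have h1 : ∃ q, x q = none := by
      by_contra hne
      push Not at hne
      apply hx
      have h2 : ∀ q, ∃ e, x q = some e := fun q => Option.ne_none_iff_exists'.1 (hne q)
      choose e he using h2
      exact ⟨fun i j => e (i, j), funext fun q => (he q).symm⟩
    obtain ⟨q, hq⟩ := h1
    rw [Finset.prod_eq_zero (Finset.mem_univ q) (by rw [hq, hg]), zero_smul]
  · intro ε
    rw [Fintype.prod_prod_type]

omit [IsAlgClosed K] in
private theorem sum_noneL {G : Type} [AddCommGroup G] (g : Option ℤˣ → ℤ) (h1 : g (some 1) = 0) (h2 : g (some (-1)) = 0)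
    (h3 : g none = 2) (F : (Fin k × Fin c → Option ℤˣ) → G) :
    ∑ x : Fin k × Fin c → Option ℤˣ, (∏ q, g (x q)) • F x = (2 ^ (k * c) : ℤ) • F (fun _ => none) := by
  classical
  rw [Fintype.sum_eq_single (fun _ => none)]
  · rw [Finset.prod_congr rfl (fun q _ => h3), Finset.prod_const, Finset.card_univ, Fintype.card_prod, Fintype.card_fin,
      Fintype.card_fin]
  · intro x hx
    obtain ⟨q, hq⟩ := Function.ne_iff.1 hx
    rw [Finset.prod_eq_zero (Finset.mem_univ q), zero_smul]
    obtain ⟨e, he⟩ := Option.ne_none_iff_exists'.1 hq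
    rw [he]
    rcases Int.units_eq_one_or e with h | h
    · rw [h, h1]
    · rw [h, h2]

omit [IsAlgClosed K] in
private theorem sum_prodL (g : Option ℤˣ → ℤ) (h1 : g (some 1) = 2) (h2 : g (some (-1)) = 0)
    (h3 : g none = -2) (R : Fin k → Row s c K) :
    ∑ x : Fin k × Fin c → Option ℤˣ, (∏ q, g (x q)) • cqL X (pkLX X R x) =
      (2 ^ (k * c) : ℤ) • (QuotientAddGroup.mk (prodX R) : CycX k s c K ⧸ RatLX k X) := by
  classical
  have h4 := Fintype.sum_of_injective (fun (J : Finset (Fin k × Fin c)) q => if q ∈ J then (none : Option ℤˣ) else some 1) (by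
      intro J J' h
      ext q
      have h5 := congrFun h q
      dsimp only at h5
      by_cases hq : q ∈ J <;> by_cases hq' : q ∈ J' <;> simp [hq, hq'] at h5 ⊢)
    (fun J : Finset (Fin k × Fin c) => (2 ^ (k * c) : ℤ) • (-1 : ℤ) ^ J.card • cqL X (rep J R))
    (fun x => (∏ q, g (x q)) • cqL X (pkLX X R x)) (by
      intro x hx
      have h5 : ∃ q, x q = some (-1) := by
        by_contra hne
        push Not at hne
        apply hx
        refine ⟨Finset.univ.filter fun q => x q = none, funext fun q => ?_⟩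
        dsimp only
        split_ifs with hq
        · exact (Finset.mem_filter.1 hq).2.symm
        · have hq' : x q ≠ none := fun h => hq (Finset.mem_filter.2 ⟨Finset.mem_univ _, h⟩)
          obtain ⟨e, he⟩ := Option.ne_none_iff_exists'.1 hq'
          rcases Int.units_eq_one_or e with h | h
          · rw [he, h]
          · exact absurd (by rw [he, h]) (hne q)
      obtain ⟨q, hq⟩ := h5
      rw [Finset.prod_eq_zero (Finset.mem_univ q) (by rw [hq, h2])]
      exact zero_zsmul _) (by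
      intro J
      dsimp only
      have e1 : pkLX X R (fun q => if q ∈ J then (none : Option ℤˣ) else some 1) = rep J R := by
        funext i
        unfold pkLX rep
        refine Row.ext rfl ?_
        funext j
        show pkL (X.L j) ((R i).P j) (if (i, j) ∈ J then none else some 1) = if (i, j) ∈ J then o s K else (R i).P j
        split_ifs
        · rfl
        · exact sgL_one _ _
      have e2 : ∏ q : Fin k × Fin c, g (if q ∈ J then (none : Option ℤˣ) else some 1) = 2 ^ (k * c) * (-1) ^ J.card := by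
        have e3 : ∀ q : Fin k × Fin c, g (if q ∈ J then (none : Option ℤˣ) else some 1) = 2 * (if q ∈ J then (-1 : ℤ) else 1) := by
          intro q
          split_ifs
          · rw [h3]; norm_num
          · rw [h1]; norm_num
        rw [Finset.prod_congr rfl (fun q _ => e3 q), Finset.prod_mul_distrib, Finset.prod_const, Finset.card_univ,
          Fintype.card_prod, Fintype.card_fin, Fintype.card_fin, Finset.prod_ite, Finset.prod_const_one, mul_one, Finset.prod_const]
        congr 3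
        ext q
        simp
      rw [e1, e2, mul_smul])
  rw [← h4, ← Finset.smul_sum]
  congr 1
  unfold prodX
  have h5 := map_sum (QuotientAddGroup.mk' (RatLX k X)) (fun J : Finset (Fin k × Fin c) => (-1 : ℤ) ^ J.card • ptX (rep J R)) Finset.univ
  simp only [map_zsmul] at h5
  exact h5.symm

/-- the rows with signs -/
noncomputable def sgLR (X : LD K s c) (ε : Fin c → ℤˣ) (R : Row s c K) : Row s c K := ⟨R.β, fun j => sgL (X.L j) (ε j) (R.P j)⟩

/-- the orbit sum modulo rational equivalence -/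
theorem orbL_rat (hX : X.Ok) {R : Fin k → Row s c K} (hR : ∀ i, OnLX X (R i)) :
    2 • orbL X R - (2 ^ (k * c) : ℤ) • ∑ σ : Equiv.Perm (Fin k), ptX (fun i => sec c (R (σ i)).β) - (2 ^ (k * c) : ℤ) • altX R ∈
      RatLX k X := by
  classical
  rw [← QuotientAddGroup.eq_zero_iff]
  have key : ∀ σ : Equiv.Perm (Fin k), (QuotientAddGroup.mk (2 • ∑ ε ∈ (Finset.univ : Finset (Fin k → Fin c → ℤˣ)).filter
      (fun ε => ∏ i, ∏ j, ε i j = Equiv.Perm.sign σ ^ c), ptX (fun i => sgLR X (ε i) (R (σ i)))) : CycX k s c K ⧸ RatLX k X) =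
      QuotientAddGroup.mk ((2 ^ (k * c) : ℤ) • ptX (fun i => sec c (R (σ i)).β) +
        (2 ^ (k * c) : ℤ) • (((Equiv.Perm.sign σ : ℤ)) ^ c • prodX (fun i => R (σ i)))) := by
    intro σ
    set Q : Fin k → Row s c K := fun i => R (σ i) with hQ
    have hQX : ∀ i, OnLX X (Q i) := fun i => hR _
    have c1 := weightL hX hQX (fun a => a.elim 0 fun _ => 1) (fun a => a.elim 2 fun _ => 0) 1 (by simp) (by simp) (by simp)
    have c2 := weightL hX hQX (fun a => a.elim 0 fun e => (e : ℤ)) (fun a => a.elim (-2) fun e => if e = 1 then 2 else 0) (-1)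
      (by simp) (by simp) (by simp)
    rw [sum_signsL (fun a => a.elim 0 fun _ => 1) rfl, sum_noneL (fun a => a.elim 2 fun _ => 0) rfl rfl rfl] at c1
    rw [sum_signsL (fun a => a.elim 0 fun e => (e : ℤ)) rfl,
      sum_prodL (fun a => a.elim (-2) fun e => if e = 1 then 2 else 0) (by simp) (by simp) rfl] at c2
    have e1 : ∀ ε : Fin k → Fin c → ℤˣ, pkLX X Q (fun q => some (ε q.1 q.2)) = fun i => sgLR X (ε i) (R (σ i)) := fun ε => rfl
    have e2 : pkLX X Q (fun _ => none) = fun i => sec c (R (σ i)).β := rfl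
    simp only [Option.elim_some, Finset.prod_const_one, one_smul, e1] at c1
    simp only [Option.elim_some, e1] at c2
    rw [e2] at c1
    set η : ℤˣ := Equiv.Perm.sign σ ^ c with hη
    have h1 : (QuotientAddGroup.mk (2 • ∑ ε ∈ (Finset.univ : Finset (Fin k → Fin c → ℤˣ)).filter
      (fun ε => ∏ i, ∏ j, ε i j = η), ptX (fun i => sgLR X (ε i) (R (σ i)))) : CycX k s c K ⧸ RatLX k X) =
        ∑ ε : Fin k → Fin c → ℤˣ, cqL X (fun i => sgLR X (ε i) (R (σ i))) +
          (η : ℤ) • ∑ ε : Fin k → Fin c → ℤˣ, (∏ i, ∏ j, ((ε i j : ℤˣ) : ℤ)) • cqL X (fun i => sgLR X (ε i) (R (σ i))) := by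
      have e3 : (η : ℤ) • ∑ ε : Fin k → Fin c → ℤˣ, (∏ i, ∏ j, ((ε i j : ℤˣ) : ℤ)) • cqL X (fun i => sgLR X (ε i) (R (σ i))) =
          ∑ ε : Fin k → Fin c → ℤˣ, (η : ℤ) • (∏ i, ∏ j, ((ε i j : ℤˣ) : ℤ)) • cqL X (fun i => sgLR X (ε i) (R (σ i))) :=
        Finset.smul_sum
      rw [e3, ← Finset.sum_add_distrib, Finset.sum_filter]
      have h2 := map_sum (QuotientAddGroup.mk' (RatLX k X)) (fun ε : Fin k → Fin c → ℤˣ =>
        if ∏ i, ∏ j, ε i j = η then ptX (fun i => sgLR X (ε i) (R (σ i))) else 0) Finset.univ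
      have h3 := map_nsmul (QuotientAddGroup.mk' (RatLX k X)) 2 (∑ ε : Fin k → Fin c → ℤˣ,
        if ∏ i, ∏ j, ε i j = η then ptX (fun i => sgLR X (ε i) (R (σ i))) else 0)
      refine Eq.trans h3 ?_
      rw [h2, Finset.smul_sum]
      refine Finset.sum_congr rfl fun ε _ => ?_
      have h4 : (η : ℤ) • (∏ i, ∏ j, ((ε i j : ℤˣ) : ℤ)) • cqL X (fun i => sgLR X (ε i) (R (σ i))) =
          ((η * ∏ i, ∏ j, ε i j : ℤˣ) : ℤ) • cqL X (fun i => sgLR X (ε i) (R (σ i))) := by
        rw [smul_smul, Units.val_mul]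
        congr 2
        rw [Units.coe_prod]
        exact Finset.prod_congr rfl fun i _ => (Units.coe_prod _ _).symm
      rw [h4]
      split_ifs with h
      · rw [h, Int.units_mul_self, Units.val_one, one_smul, two_smul]
        rfl
      · have h5 : η * ∏ i, ∏ j, ε i j = -1 := by
          rcases Int.units_eq_one_or (η * ∏ i, ∏ j, ε i j) with h6 | h6
          · exfalso
            apply h
            calc ∏ i, ∏ j, ε i j = η * (η * ∏ i, ∏ j, ε i j) := by rw [← mul_assoc, Int.units_mul_self, one_mul]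
              _ = η := by rw [h6, mul_one]
          · exact h6
        rw [h5, Units.val_neg, Units.val_one, neg_smul, one_smul, add_neg_cancel, map_zero, smul_zero]
    rw [h1, c1, c2, QuotientAddGroup.mk_add, QuotientAddGroup.mk_zsmul, QuotientAddGroup.mk_zsmul, QuotientAddGroup.mk_zsmul]
    have h6 : (η : ℤ) = ((Equiv.Perm.sign σ : ℤ)) ^ c := by rw [hη, Units.val_pow_eq_pow_val]
    rw [h6, smul_comm]
    rfl
  have h1 : (QuotientAddGroup.mk (2 • orbL X R) : CycX k s c K ⧸ RatLX k X) =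
      QuotientAddGroup.mk ((2 ^ (k * c) : ℤ) • ∑ σ : Equiv.Perm (Fin k), ptX (fun i => sec c (R (σ i)).β) + (2 ^ (k * c) : ℤ) • altX R) := by
    unfold orbL
    rw [Finset.smul_sum]
    have h2 := map_sum (QuotientAddGroup.mk' (RatLX k X)) (fun σ : Equiv.Perm (Fin k) =>
      2 • ∑ ε ∈ (Finset.univ : Finset (Fin k → Fin c → ℤˣ)).filter
      (fun ε => ∏ i, ∏ j, ε i j = Equiv.Perm.sign σ ^ c),
        (ptX (fun i => ⟨(R (σ i)).β, fun j => sgL (X.L j) (ε i j) ((R (σ i)).P j)⟩) : CycX k s c K)) Finset.univ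
    have h3 := map_sum (QuotientAddGroup.mk' (RatLX k X)) (fun σ : Equiv.Perm (Fin k) =>
      (2 ^ (k * c) : ℤ) • ptX (fun i => sec c (R (σ i)).β) +
        (2 ^ (k * c) : ℤ) • (((Equiv.Perm.sign σ : ℤ)) ^ c • prodX (fun i => R (σ i)))) Finset.univ
    refine Eq.trans h2 ?_
    refine Eq.trans (Finset.sum_congr rfl fun σ _ => key σ) ?_
    refine Eq.trans h3.symm ?_
    show (QuotientAddGroup.mk _ : CycX k s c K ⧸ RatLX k X) = QuotientAddGroup.mk _
    congr 1
    rw [Finset.sum_add_distrib, ← Finset.smul_sum, ← Finset.smul_sum]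
    rfl
  rw [sub_sub, QuotientAddGroup.mk_sub, h1, sub_self]

/-- any base curve: the orbit sum is a cycle on the zero section up to torsion -/
theorem orbL_tor (hX : X.Ok) {R : Fin k → Row s c K} (hR : ∀ i, OnLX X (R i)) (hA : ∃ N : ℕ, 0 < N ∧ N • altX R ∈ RatLX k X) :
    ∃ N : ℕ, 0 < N ∧ N • (2 • orbL X R - (2 ^ (k * c)) • ∑ σ : Equiv.Perm (Fin k), ptX (fun i => sec c (R (σ i)).β)) ∈ RatLX k X := by
  have h1 := le_tor _ (orbL_rat hX hR)
  have h2 := AddSubgroup.zsmul_mem (tor (RatLX k X)) (mem_tor.2 hA) (2 ^ (k * c) : ℤ)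
  have h3 := AddSubgroup.add_mem _ h1 h2
  rw [sub_add_cancel] at h3
  have e : (2 ^ (k * c) : ℕ) • (∑ σ : Equiv.Perm (Fin k), ptX (fun i => sec c (R (σ i)).β) : CycX k s c K) =
      (2 ^ (k * c) : ℤ) • ∑ σ : Equiv.Perm (Fin k), ptX (fun i => sec c (R (σ i)).β) := by
    rw [← natCast_zsmul, Nat.cast_pow, Nat.cast_ofNat]
  rw [e]
  exact h3

/-- base `ℙ¹`: the orbit sum is constant up to torsion -/
theorem orbL_P1 {n : Fin c → ℕ} {a1 a2 a3 a4 a6 : Fin c → MvPolynomial (Fin 2) K} (hX : (LP n a1 a2 a3 a4 a6).Ok) (hk : 0 < k)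
    (hc : 0 < c) {R : Fin k → Row 2 c K} (hR : ∀ i, OnLX (LP n a1 a2 a3 a4 a6) (R i))
    (hA : ∃ N : ℕ, 0 < N ∧ N • altX R ∈ RatLX k (LP n a1 a2 a3 a4 a6)) {β0 : Fin 2 → K} (hβ0 : β0 ≠ 0) :
    ∃ N : ℕ, 0 < N ∧ N • (orbL (LP n a1 a2 a3 a4 a6) R - (2 ^ (k * c - 1) * k.factorial) • ptX (fun _ => sec c β0)) ∈
      RatLX k (LP n a1 a2 a3 a4 a6) := by
  classical
  set X := LP n a1 a2 a3 a4 a6 with hXdef
  have h1 : ∀ σ : Equiv.Perm (Fin k), ptX (fun i => sec c (R (σ i)).β) - ptX (fun _ => sec c β0) ∈ tor (RatLX k X) := by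
    intro σ
    have hon : ∀ β : Fin 2 → K, β ≠ 0 → OnLX X (sec c β) := fun β hβ =>
      ⟨hβ, fun f hf => absurd hf (Set.notMem_empty f), fun j => OnL_o (hX.L j) K, fun j => Or.inl rfl⟩
    have h2 := boxM_congr (M := X.mdl) (M_ok hX) (z := fun i => Finsupp.single (sec c (R (σ i)).β) (1 : ℤ))
      (z' := fun _ => Finsupp.single (sec c β0) (1 : ℤ)) (fun i => single_OnM (hon _ (hR _).ne) 1)
      (fun _ => single_OnM (hon _ hβ0) 1) (fun i => sec_nulL hX (hR _).ne hβ0)
    rw [boxX_single, boxX_single] at h2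
    exact h2
  have h2 := mem_tor.2 (orbL_tor hX hR hA)
  have h3 : (2 ^ (k * c)) • ∑ σ : Equiv.Perm (Fin k), (ptX (fun i => sec c (R (σ i)).β) - ptX (fun _ => sec c β0)) ∈
      tor (RatLX k X) := AddSubgroup.nsmul_mem _ (AddSubgroup.sum_mem _ fun σ _ => h1 σ) _
  have h4 := AddSubgroup.add_mem _ h2 h3
  refine tor_of_nsmul (N := 2) two_pos ?_
  have e : 2 • orbL X R - (2 ^ (k * c)) • (∑ σ : Equiv.Perm (Fin k), ptX (fun i => sec c (R (σ i)).β)) +
      (2 ^ (k * c)) • ∑ σ : Equiv.Perm (Fin k), (ptX (fun i => sec c (R (σ i)).β) - ptX (fun _ => sec c β0)) =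
      2 • (orbL X R - (2 ^ (k * c - 1) * k.factorial) • ptX (fun _ => sec c β0)) := by
    rw [Finset.sum_sub_distrib, Finset.sum_const, Finset.card_univ, Fintype.card_perm, Fintype.card_fin, smul_sub, smul_sub,
      smul_smul, smul_smul]
    have e2 : 2 * (2 ^ (k * c - 1) * k.factorial) = 2 ^ (k * c) * k.factorial := by
      rw [← mul_assoc, ← pow_succ', Nat.sub_add_cancel (Nat.mul_pos hk hc)]
    rw [e2]
    abel
  rwa [e] at h4

end LW
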