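import Pool.Agent.H8.LW.Tr
import Pool.Agent.H8.SC.AltZ

/-! # LW.Rat : the change of coordinates and rational equivalence (complete) -/

namespace LW

open ES H68.BB FX SCX

variable {K : Type} [Field K] [CharZero K] {s c k : ℕ}

/-! ### one surface -/

/-- push-forward from the short form to the long form -/
theorem RatL_of {W : Lm K s} (hW : W.Ok) {e : K} (he : e ≠ 0) {z : Cyc k s K} (hz : z ∈ RatEq k W.sh) :
    z.mapDomain (fun (P : Fin k → Pt s K) i => Sq W e (P i)) ∈ RatL k W := by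
  unfold ES.RatEq at hz
  induction hz using AddSubgroup.closure_induction with
  | mem z hz =>
    obtain ⟨S, π, π', C, C', hS, hG, h1, h2, rfl⟩ := hz
    have e1 : ((cyc C - cyc C').mapDomain (fun (P : Fin k → Pt s K) i => Sq W e (P i)) : Cyc k s K) =
        cyc (C.map fun P i => Sq W e (P i)) - cyc (C'.map fun P i => Sq W e (P i)) := by
      have h3 : ∀ a b : Cyc k s K, (a - b).mapDomain (fun (P : Fin k → Pt s K) i => Sq W e (P i)) =
          a.mapDomain (fun (P : Fin k → Pt s K) i => Sq W e (P i)) - b.mapDomain (fun (P : Fin k → Pt s K) i => Sq W e (P i)) :=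
        fun a b => map_sub (Finsupp.mapDomain.addMonoidHom (fun (P : Fin k → Pt s K) i => Sq W e (P i)) : Cyc k s K →+ Cyc k s K) a b
      rw [h3]
      exact congrArg₂ _ (cycX_push _ C) (cycX_push _ C')
    rw [e1]
    refine AddSubgroup.subset_closure ⟨S.map fun P i => Sq W e (P i), π, π', _, _, ?_, ?_, ?_, ?_, rfl⟩
    · intro T hT
      obtain ⟨Q, hQ, rfl⟩ := Multiset.mem_map.1 hT
      exact fun i => OnL_Sq hW he (hS Q hQ i)
    · intro σ
      rw [Multiset.map_map]
      have e2 : ((fun (P : Fin k → Pt s (Om K)) i => (P i).map σ) ∘ fun (P : Fin k → Pt s (Om K)) i => Sq W e (P i)) =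
          (fun (P : Fin k → Pt s (Om K)) i => Sq W e (P i)) ∘ fun (P : Fin k → Pt s (Om K)) i => (P i).map σ := by
        funext P i
        exact Sq_sigma W e σ (P i)
      rw [e2, ← Multiset.map_map, hG σ]
    · rw [Multiset.rel_map]
      exact h1.mono fun Q _ q _ hq i => Sp_Sq hW he (hq i)
    · rw [Multiset.rel_map]
      exact h2.mono fun Q _ q _ hq i => Sp_Sq hW he (hq i)
  | zero =>
    rw [Finsupp.mapDomain_zero]
    exact AddSubgroup.zero_mem _
  | add x y _ _ hx hy =>
    rw [Finsupp.mapDomain_add]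
    exact AddSubgroup.add_mem _ hx hy
  | neg x _ hx =>
    have h3 : (-x).mapDomain (fun (P : Fin k → Pt s K) i => Sq W e (P i)) = -x.mapDomain (fun (P : Fin k → Pt s K) i => Sq W e (P i)) :=
      map_neg (Finsupp.mapDomain.addMonoidHom (fun (P : Fin k → Pt s K) i => Sq W e (P i)) : Cyc k s K →+ Cyc k s K) x
    rw [h3]
    exact AddSubgroup.neg_mem _ hx

private theorem push_sum {T T' ι : Type} (F : T → T') (A : Finset ι) (x : ι → T →₀ ℤ) :
    (∑ i ∈ A, x i).mapDomain F = ∑ i ∈ A, (x i).mapDomain F :=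
  map_sum (Finsupp.mapDomain.addMonoidHom F : (T →₀ ℤ) →+ (T' →₀ ℤ)) x A

private theorem push_zsmul {T T' : Type} (F : T → T') (n : ℤ) (x : T →₀ ℤ) : (n • x).mapDomain F = n • x.mapDomain F :=
  map_zsmul (Finsupp.mapDomain.addMonoidHom F : (T →₀ ℤ) →+ (T' →₀ ℤ)) n x

theorem push_nsmul {T T' : Type} (F : T → T') (n : ℕ) (x : T →₀ ℤ) : (n • x).mapDomain F = n • x.mapDomain F :=
  map_nsmul (Finsupp.mapDomain.addMonoidHom F : (T →₀ ℤ) →+ (T' →₀ ℤ)) n x

/-- the alternating sum of the images of the points -/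
theorem alt_Sq {W : Lm K s} (hW : W.Ok) {e : K} (he : e ^ W.n = 6) (P : Fin k → Pt s K) :
    (alt (fun i => Tp W e (P i))).mapDomain (fun (P : Fin k → Pt s K) i => Sq W e (P i)) = alt P := by
  have hb := Sq_Tp (F := K) hW (e_ne hW he)
  have ho := Sq_o (F := K) hW he
  unfold alt prod ES.pt
  rw [push_sum]
  refine Finset.sum_congr rfl fun σ _ => ?_
  rw [push_zsmul, push_sum]
  congr 1
  refine Finset.sum_congr rfl fun J _ => ?_
  rw [push_zsmul, Finsupp.mapDomain_single]
  congr 2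
  funext i
  show Sq W e (if i ∈ J then o s K else Tp W e (P (σ i))) = if i ∈ J then o s K else P (σ i)
  split_ifs
  · exact ho
  · exact hb _

/-- from the short form to the long form -/
theorem alt_mem {W : Lm K s} [IsAlgClosed K] (hW : W.Ok) {N : ℕ}
    (h : ∀ P : Fin k → Pt s K, (∀ i, OnW W.sh (P i)) → N • alt P ∈ RatEq k W.sh) {P : Fin k → Pt s K} (hP : ∀ i, OnL W (P i)) :
    N • alt P ∈ RatL k W := by
  obtain ⟨e, he⟩ := IsAlgClosed.exists_pow_nat_eq (6 : K) hW.n
  have h1 := RatL_of hW (e_ne hW he) (h (fun i => Tp W e (P i)) fun i => OnW_Tp hW (e_ne hW he) (hP i))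
  rwa [push_nsmul, alt_Sq hW he] at h1

/-- from the short form to the long form, `N` depending on the points -/
theorem alt_mem' {W : Lm K s} [IsAlgClosed K] (hW : W.Ok)
    (h : ∀ P : Fin k → Pt s K, (∀ i, OnW W.sh (P i)) → ∃ N : ℕ, 0 < N ∧ N • alt P ∈ RatEq k W.sh) {P : Fin k → Pt s K}
    (hP : ∀ i, OnL W (P i)) : ∃ N : ℕ, 0 < N ∧ N • alt P ∈ RatL k W := by
  obtain ⟨e, he⟩ := IsAlgClosed.exists_pow_nat_eq (6 : K) hW.n
  obtain ⟨N, hN, h0⟩ := h (fun i => Tp W e (P i)) fun i => OnW_Tp hW (e_ne hW he) (hP i)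
  have h1 := RatL_of hW (e_ne hW he) h0
  rw [push_nsmul, alt_Sq hW he] at h1
  exact ⟨N, hN, h1⟩

/-! ### fibre products -/

/-- the map on rows: short form to long form -/
noncomputable def Sr {F : Type} [Field F] [Algebra K F] (X : LD K s c) (e : Fin c → K) (R : Row s c F) : Row s c F :=
  ⟨R.β, fun j => Sq (X.L j) (e j) (R.P j)⟩

/-- the map on rows: long form to short form -/
noncomputable def Tr {F : Type} [Field F] [Algebra K F] (X : LD K s c) (e : Fin c → K) (R : Row s c F) : Row s c F :=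
  ⟨R.β, fun j => Tp (X.L j) (e j) (R.P j)⟩

theorem LD_sh_ok {X : LD K s c} (hX : X.Ok) : X.sh.Ok :=
  ⟨hX.v, hX.n, hX.I, fun j => (sh_ok (hX.L j)).a, fun j => (sh_ok (hX.L j)).b⟩

theorem over_sm {F : Type} [Field F] {v : Fin s → ℕ} {β β' : Fin s → F} (h : Over v β β') {d : F} (hd : d ≠ 0) :
    Over v β (fun i => d ^ v i * β' i) := by
  rcases h with h | ⟨d', hd', h⟩
  · left
    funext i
    rw [h, Pi.zero_apply, mul_zero]
  · right
    refine ⟨d * d', mul_ne_zero hd hd', ?_⟩
    funext i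
    rw [h, mul_pow, mul_assoc]

theorem OnX_Tr {F : Type} [Field F] [Algebra K F] [CharZero F] {X : LD K s c} (hX : X.Ok) {e : Fin c → K} (he : ∀ j, e j ≠ 0)
    {R : Row s c F} (h : OnLX X R) : OnX X.sh (Tr X e R) := by
  refine ⟨h.ne, h.I, fun j => OnW_Tp (hX.L j) (he j) (h.on j), fun j => ?_⟩
  exact over_sm (h.ov j) (inv_ne_zero ((map_ne_zero_iff _ (algebraMap K F).injective).2 (he j)))

theorem OnLX_Sr {F : Type} [Field F] [Algebra K F] [CharZero F] {X : LD K s c} (hX : X.Ok) {e : Fin c → K} (he : ∀ j, e j ≠ 0)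
    {R : Row s c F} (h : OnX X.sh R) : OnLX X (Sr X e R) := by
  refine ⟨h.ne, h.I, fun j => OnL_Sq (hX.L j) (he j) (h.on j), fun j => ?_⟩
  exact over_sm (h.ov j) ((map_ne_zero_iff _ (algebraMap K F).injective).2 (he j))

/-- push-forward from the short form to the long form -/
theorem RatLX_of {X : LD K s c} (hX : X.Ok) {e : Fin c → K} (he : ∀ j, e j ≠ 0) {z : CycX k s c K} (hz : z ∈ RatX k X.sh) :
    z.mapDomain (fun (R : Fin k → Row s c K) i => Sr X e (R i)) ∈ RatLX k X := by
  unfold RatX at hz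
  induction hz using AddSubgroup.closure_induction with
  | mem z hz =>
    obtain ⟨S, π, π', C, C', hS, hG, h1, h2, rfl⟩ := hz
    have e1 : ((cycX C - cycX C').mapDomain (fun (R : Fin k → Row s c K) i => Sr X e (R i)) : CycX k s c K) =
        cycX (C.map fun R i => Sr X e (R i)) - cycX (C'.map fun R i => Sr X e (R i)) := by
      have h3 : ∀ a b : CycX k s c K, (a - b).mapDomain (fun (R : Fin k → Row s c K) i => Sr X e (R i)) =
          a.mapDomain (fun (R : Fin k → Row s c K) i => Sr X e (R i)) -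
            b.mapDomain (fun (R : Fin k → Row s c K) i => Sr X e (R i)) :=
        fun a b => map_sub
          (Finsupp.mapDomain.addMonoidHom (fun (R : Fin k → Row s c K) i => Sr X e (R i)) : CycX k s c K →+ CycX k s c K) a b
      rw [h3]
      exact congrArg₂ _ (cycX_push _ C) (cycX_push _ C')
    rw [e1]
    refine AddSubgroup.subset_closure ⟨S.map fun R i => Sr X e (R i), π, π', _, _, ?_, ?_, ?_, ?_, rfl⟩
    · intro T hT
      obtain ⟨Q, hQ, rfl⟩ := Multiset.mem_map.1 hT
      exact fun i => OnLX_Sr hX he (hS Q hQ i)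
    · intro σ
      rw [Multiset.map_map]
      have e2 : ((fun (R : Fin k → Row s c (Om K)) i => (R i).map σ) ∘ fun (R : Fin k → Row s c (Om K)) i => Sr X e (R i)) =
          (fun (R : Fin k → Row s c (Om K)) i => Sr X e (R i)) ∘ fun (R : Fin k → Row s c (Om K)) i => (R i).map σ := by
        funext R i
        refine Row.ext rfl ?_
        funext j
        exact Sq_sigma (X.L j) (e j) σ ((R i).P j)
      rw [e2, ← Multiset.map_map, hG σ]
    · rw [Multiset.rel_map]
      exact h1.mono fun Q _ q _ hq i => ⟨(hq i).β, fun j => Sp_Sq (hX.L j) (he j) ((hq i).P j)⟩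
    · rw [Multiset.rel_map]
      exact h2.mono fun Q _ q _ hq i => ⟨(hq i).β, fun j => Sp_Sq (hX.L j) (he j) ((hq i).P j)⟩
  | zero =>
    rw [Finsupp.mapDomain_zero]
    exact AddSubgroup.zero_mem _
  | add x y _ _ hx hy =>
    rw [Finsupp.mapDomain_add]
    exact AddSubgroup.add_mem _ hx hy
  | neg x _ hx =>
    have h3 : (-x).mapDomain (fun (R : Fin k → Row s c K) i => Sr X e (R i)) =
        -x.mapDomain (fun (R : Fin k → Row s c K) i => Sr X e (R i)) :=
      map_neg (Finsupp.mapDomain.addMonoidHom (fun (R : Fin k → Row s c K) i => Sr X e (R i)) : CycX k s c K →+ CycX k s c K) x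
    rw [h3]
    exact AddSubgroup.neg_mem _ hx

theorem Sr_Tr {F : Type} [Field F] [Algebra K F] [CharZero F] {X : LD K s c} (hX : X.Ok) {e : Fin c → K} (he : ∀ j, e j ≠ 0)
    (R : Row s c F) : Sr X e (Tr X e R) = R :=
  Row.ext rfl (funext fun j => Sq_Tp (hX.L j) (he j) (R.P j))

/-- the alternating sum of the images of the rows -/
theorem altX_Sr {X : LD K s c} (hX : X.Ok) {e : Fin c → K} (he : ∀ j, e j ^ X.n j = 6) (R : Fin k → Row s c K) :
    (altX (fun i => Tr X e (R i))).mapDomain (fun (R : Fin k → Row s c K) i => Sr X e (R i)) = altX R := by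
  have ho := fun j => Sq_o (F := K) (hX.L j) (he j)
  have hb := fun j => Sq_Tp (F := K) (hX.L j) (e_ne (hX.L j) (he j))
  unfold altX prodX ptX
  rw [push_sum]
  refine Finset.sum_congr rfl fun σ _ => ?_
  rw [push_zsmul, push_sum]
  congr 1
  refine Finset.sum_congr rfl fun J _ => ?_
  rw [push_zsmul, Finsupp.mapDomain_single]
  congr 2
  funext i
  refine Row.ext rfl ?_
  funext j
  show Sq (X.L j) (e j) (if (i, j) ∈ J then o s K else Tp (X.L j) (e j) ((R (σ i)).P j)) =
    if (i, j) ∈ J then o s K else (R (σ i)).P j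
  split_ifs
  · exact ho j
  · exact hb j _

theorem e_exists [IsAlgClosed K] {X : LD K s c} (hX : X.Ok) : ∃ e : Fin c → K, (∀ j, e j ^ X.n j = 6) ∧ ∀ j, e j ≠ 0 := by
  choose e he using fun j => IsAlgClosed.exists_pow_nat_eq (6 : K) (hX.n j)
  exact ⟨e, he, fun j => e_ne (hX.L j) (he j)⟩

/-- from the short form to the long form -/
theorem altX_mem [IsAlgClosed K] {X : LD K s c} (hX : X.Ok)
    (h : ∀ R : Fin k → Row s c K, (∀ i, OnX X.sh (R i)) → ∃ N : ℕ, 0 < N ∧ N • altX R ∈ RatX k X.sh) {R : Fin k → Row s c K}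
    (hR : ∀ i, OnLX X (R i)) : ∃ N : ℕ, 0 < N ∧ N • altX R ∈ RatLX k X := by
  obtain ⟨e, he, he0⟩ := e_exists hX
  obtain ⟨N, hN, h0⟩ := h (fun i => Tr X e (R i)) fun i => OnX_Tr hX he0 (hR i)
  have h1 := RatLX_of hX he0 h0
  rw [push_nsmul, altX_Sr hX he] at h1
  exact ⟨N, hN, h1⟩

/-- push-forward of exterior products -/
theorem boxX_map {T T' : Type} (F : T → T') (z : Fin k → (T →₀ ℤ)) :
    (boxX z).mapDomain (fun (R : Fin k → T) i => F (R i)) = boxX (fun i => (z i).mapDomain F) := by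
  classical
  have e : ∀ z : Fin k → (T →₀ ℤ), boxX z =
      ∑ P ∈ Fintype.piFinset (fun i => (z i).support), (∏ i, z i (P i)) • Finsupp.single P (1 : ℤ) := by
    intro z
    have h := boxX_sum z (fun P : T => Finsupp.single P (1 : ℤ))
    have h2 : (fun i => ∑ P ∈ (z i).support, z i P • Finsupp.single P (1 : ℤ)) = z := funext fun i => (cyc_eq (z i)).symm
    rw [h2] at h
    rw [h]
    exact Finset.sum_congr rfl fun P _ => by rw [boxX_single]
  have e2 : ∀ w : T →₀ ℤ, w.mapDomain F = ∑ P ∈ w.support, w P • Finsupp.single (F P) (1 : ℤ) := by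
    intro w
    conv_lhs => rw [cyc_eq w]
    rw [push_sum]
    exact Finset.sum_congr rfl fun P _ => by rw [push_zsmul, Finsupp.mapDomain_single]
  rw [e z, push_sum]
  have h3 := boxX_sum z (fun P : T => Finsupp.single (F P) (1 : ℤ))
  have h4 : (fun i => ∑ P ∈ (z i).support, z i P • Finsupp.single (F P) (1 : ℤ)) = fun i => (z i).mapDomain F :=
    funext fun i => (e2 (z i)).symm
  rw [h4] at h3
  rw [h3]
  refine Finset.sum_congr rfl fun P _ => ?_
  rw [push_zsmul, Finsupp.mapDomain_single]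
  congr 1
  exact (boxX_single (fun i => F (P i))).symm

theorem altzX_map (F : Row s c K → Row s c K) (z : Fin k → (Row s c K →₀ ℤ)) :
    (altzX z).mapDomain (fun (R : Fin k → Row s c K) i => F (R i)) = altzX (fun i => (z i).mapDomain F) := by
  unfold altzX
  rw [push_sum]
  refine Finset.sum_congr rfl fun σ _ => ?_
  rw [push_zsmul, boxX_map]

/-- zero-cycles: from the short form to the long form -/
theorem altzX_memL [IsAlgClosed K] {X : LD K s c} (hX : X.Ok) {z : Fin k → (Row s c K →₀ ℤ)}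
    (h : ∀ F : Row s c K → Row s c K, (∀ R, OnLX X R → OnX X.sh (F R)) →
      ∃ N : ℕ, 0 < N ∧ N • altzX (fun i => (z i).mapDomain F) ∈ RatX k X.sh) :
    ∃ N : ℕ, 0 < N ∧ N • altzX z ∈ RatLX k X := by
  obtain ⟨e, he, he0⟩ := e_exists hX
  obtain ⟨N, hN, h0⟩ := h (Tr X e) fun R hR => OnX_Tr hX he0 hR
  have h1 := RatLX_of hX he0 h0
  rw [push_nsmul, altzX_map] at h1
  have h2 : (fun i => ((z i).mapDomain (Tr X e)).mapDomain (Sr X e)) = z := by
    funext i
    rw [← Finsupp.mapDomain_comp]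
    have h3 : (Sr X e ∘ Tr X e : Row s c K → Row s c K) = id := funext fun R => Sr_Tr hX he0 R
    rw [h3]
    exact Finsupp.mapDomain_id
  rw [h2] at h1
  exact ⟨N, hN, h1⟩

end LW
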