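import Pool.Agent.H8.LW.Any
import Pool.Agent.H8.LW.OrbL

/-! # LWR : the final statement, all algebraically closed fields (complete) -/

namespace LWR

open ES FX SCX LW

/-- `K` any algebraically closed field, `0 < c`, `0 < n_j`, `n_1 + .. + n_c ≤ k`, `a_ij` binary forms of degrees `i n_j` (`i = 1, 2, 3, 4, 6`),
`W_j : y^2 + a_1j x y + a_3j y = x^3 + a_2j x^2 + a_4j x + a_6j` and `X = W_1 ×_ℙ¹ .. ×_ℙ¹ W_c`.
(1) Zero-cycles `z_i` on `X` whose images under the `c` maps `X → X` which replace the point of `W_j` by `o` are torsion; (2) `c = 1`, or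
`c = 2` and `n_1 = n_2 = 1`, all zero-cycles `z_i` of degree zero; (3) the sums over the group
`G = {(ε, σ) ∈ {± 1}^(k × c) ⋊ S_k : ∏ ε = sgn(σ)^c}`. -/
theorem main_any (K : Type) [Field K] [IsAlgClosed K] (c k : ℕ) (n : Fin c → ℕ) (a1 a2 a3 a4 a6 : Fin c → MvPolynomial (Fin 2) K)
    (hc : 0 < c) (hn : ∀ j, 0 < n j) (h1 : ∀ j, (a1 j).IsHomogeneous (n j)) (h2 : ∀ j, (a2 j).IsHomogeneous (2 * n j))
    (h3 : ∀ j, (a3 j).IsHomogeneous (3 * n j)) (h4 : ∀ j, (a4 j).IsHomogeneous (4 * n j)) (h6 : ∀ j, (a6 j).IsHomogeneous (6 * n j))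
    (hk : ∑ j, n j ≤ k) :
    (∀ z : Fin k → (Row 2 c K →₀ ℤ), (∀ i, ∀ R ∈ (z i).support, OnLX (LP n a1 a2 a3 a4 a6) R) →
      ((∀ i j, ∃ N : ℕ, 0 < N ∧ N • boxX (fun _ : Fin 1 => (z i).mapDomain (rho j)) ∈ RatLX 1 (LP n a1 a2 a3 a4 a6)) ∨
        ((c = 1 ∨ (c = 2 ∧ ∀ j, n j = 1)) ∧ ∀ i, ((z i).sum fun _ m => m) = 0)) →
      ∃ N : ℕ, 0 < N ∧ N • altzX z ∈ RatLX k (LP n a1 a2 a3 a4 a6)) ∧
    (∀ R : Fin k → Row 2 c K, (∀ i, OnLX (LP n a1 a2 a3 a4 a6) (R i)) → ∀ β : Fin 2 → K, β ≠ 0 →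
      ∃ N : ℕ, 0 < N ∧ N • (orbL (LP n a1 a2 a3 a4 a6) R - (2 ^ (k * c - 1) * k.factorial) • ptX (fun _ => sec c β)) ∈
        RatLX k (LP n a1 a2 a3 a4 a6)) := by
  have hX : (LP n a1 a2 a3 a4 a6).Ok := ⟨fun _ => Nat.one_pos, hn, fun f hf => absurd hf (Set.notMem_empty f), h1, h2, h3, h4, h6⟩
  have hk0 : 0 < k := by
    have h := Finset.single_le_sum (f := n) (fun _ _ => Nat.zero_le _) (Finset.mem_univ (⟨0, hc⟩ : Fin c))
    have := hn ⟨0, hc⟩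
    omega
  refine ⟨fun z hz h => ?_, fun R hR β hβ => ?_⟩
  · rcases h with h | ⟨h, h0⟩
    · exact any_one hc hX hk hz h
    · exact any_two hX hk h hz h0
  · exact orbL_P1 hX hk0 hc hR (LWP.altXL_all K hc hX hk hR) hβ

end LWR
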